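import Mathlib
set_option autoImplicit false
namespace TH994.Mult
open Finset Matrix

/-- rank one symmetric matrix -/
def r1 {k : ℕ} (v : Fin k → ℝ) : Matrix (Fin k) (Fin k) ℝ := vecMulVec v v

lemma r1_psd {k : ℕ} (v : Fin k → ℝ) : (r1 v).PosSemidef := by
  have h := Matrix.posSemidef_vecMulVec_self_star (R := ℝ) v
  simpa [r1] using h

lemma smul_r1_psd {k : ℕ} (a : ℝ) (ha : 0 ≤ a) (v : Fin k → ℝ) : (a • r1 v).PosSemidef :=
  (r1_psd v).smul ha

lemma det_add_r1 {k : ℕ} (A : Matrix (Fin k) (Fin k) ℝ) (hA : A.PosDef) (a : ℝ) (v : Fin k → ℝ) :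
    (A + a • r1 v).det = A.det * (1 + a * (v ⬝ᵥ (A⁻¹ *ᵥ v))) := by
  have hu : IsUnit A.det := hA.det_pos.ne'.isUnit
  have h := Matrix.det_add_replicateCol_mul_replicateRow (ι := Unit) hu (a • v) v
  rw [← Matrix.vecMulVec_eq] at h
  have h1 : vecMulVec (a • v) v = a • r1 v := by
    ext i j
    simp [vecMulVec_apply, r1, mul_assoc]
  rw [h1] at h
  rw [h]
  congr 1
  rw [Matrix.det_unique]
  simp only [Matrix.add_apply, Matrix.one_apply_eq]
  congr 1
  rw [Matrix.mul_apply]
  simp only [Matrix.mul_apply, replicateRow_apply, replicateCol_apply, Pi.smul_apply, smul_eq_mul,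
    dotProduct, Matrix.mulVec, Finset.mul_sum, Finset.sum_mul]
  rw [Finset.sum_comm]
  apply Finset.sum_congr rfl
  intro i _
  apply Finset.sum_congr rfl
  intro j _
  ring

lemma det_le_add_r1 {k : ℕ} (A : Matrix (Fin k) (Fin k) ℝ) (hA : A.PosDef) (a : ℝ) (ha : 0 ≤ a)
    (v : Fin k → ℝ) : A.det ≤ (A + a • r1 v).det := by
  rw [det_add_r1 A hA]
  have h1 : 0 < A.det := hA.det_pos
  have h2 : 0 ≤ v ⬝ᵥ (A⁻¹ *ᵥ v) := by
    have := hA.inv.posSemidef.dotProduct_mulVec_nonneg v
    simpa using this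
  have h3 : 0 ≤ a * (v ⬝ᵥ (A⁻¹ *ᵥ v)) := mul_nonneg ha h2
  nlinarith [mul_nonneg h1.le h3]

lemma det_le_add_sum {k : ℕ} {T : Type} [DecidableEq T] (s : Finset T)
    (A : Matrix (Fin k) (Fin k) ℝ) (hA : A.PosDef) (a : T → ℝ) (ha : ∀ u, 0 ≤ a u)
    (f : T → Fin k → ℝ) :
    (A + ∑ u ∈ s, a u • r1 (f u)).PosDef ∧ A.det ≤ (A + ∑ u ∈ s, a u • r1 (f u)).det := by
  induction s using Finset.induction_on with
  | empty => simp [hA]
  | insert u s hu ih =>
    obtain ⟨h1, h2⟩ := ih
    rw [Finset.sum_insert hu, add_comm (a u • r1 (f u)), ← add_assoc]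
    exact ⟨h1.add_posSemidef (smul_r1_psd _ (ha u) _), h2.trans (det_le_add_r1 _ h1 _ (ha u) _)⟩

variable {T : Type} [Fintype T] [DecidableEq T] {k : ℕ}

/-- weighted Gram matrix -/
noncomputable def gram (f : T → Fin k → ℝ) (t : T → ℕ) : Matrix (Fin k) (Fin k) ℝ :=
  ∑ u, (2:ℝ) ^ t u • r1 (f u)

lemma gram_quad (f : T → Fin k → ℝ) (t : T → ℕ) (c : Fin k → ℝ) :
    c ⬝ᵥ (gram f t *ᵥ c) = ∑ u, 2 ^ t u * (f u ⬝ᵥ c) ^ 2 := by
  unfold gram
  rw [Matrix.sum_mulVec, dotProduct_sum]
  apply Finset.sum_congr rfl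
  intro u _
  rw [Matrix.smul_mulVec, dotProduct_smul]
  unfold r1
  rw [Matrix.vecMulVec_mulVec]
  simp only [dotProduct, smul_eq_mul, Pi.smul_apply, op_smul_eq_smul, MulOpposite.smul_eq_mul_unop,
    MulOpposite.unop_op]
  rw [pow_two, Finset.sum_mul]
  congr 1
  apply Finset.sum_congr rfl
  intro i _
  ring

lemma gram_posDef (f : T → Fin k → ℝ) (t : T → ℕ)
    (hspan : ∀ c : Fin k → ℝ, (∀ u, f u ⬝ᵥ c = 0) → c = 0) : (gram f t).PosDef := by
  apply Matrix.PosDef.of_dotProduct_mulVec_pos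
  · unfold gram
    have := Matrix.posSemidef_sum (Finset.univ) (fun (u : T) _ =>
      smul_r1_psd ((2:ℝ) ^ t u) (by positivity) (f u))
    exact this.isHermitian
  · intro x hx
    simp only [star_trivial]
    rw [gram_quad]
    have h0 : ∀ u ∈ (univ : Finset T), (0:ℝ) ≤ 2 ^ t u * (f u ⬝ᵥ x) ^ 2 := fun u _ => by positivity
    rcases (Finset.sum_nonneg h0).lt_or_eq with h | h
    · exact h
    · exfalso
      apply hx
      apply hspan
      intro u
      have h1 := (Finset.sum_eq_zero_iff_of_nonneg h0).mp h.symm u (Finset.mem_univ u)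
      have h2 : (0:ℝ) < 2 ^ t u := by positivity
      rcases mul_eq_zero.mp h1 with h3 | h3
      · exact absurd h3 h2.ne'
      · exact pow_eq_zero_iff (two_ne_zero) |>.mp h3

lemma gram_update (f : T → Fin k → ℝ) (t : T → ℕ) (u : T) :
    gram f (Function.update t u (t u + 1)) = gram f t + (2:ℝ) ^ t u • r1 (f u) := by
  unfold gram
  rw [← Finset.add_sum_erase _ _ (Finset.mem_univ u), ← Finset.add_sum_erase univ
    (fun u => (2:ℝ) ^ t u • r1 (f u)) (Finset.mem_univ u)]
  have h1 : ∑ x ∈ univ.erase u, (2:ℝ) ^ (Function.update t u (t u + 1) x) • r1 (f x)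
      = ∑ x ∈ univ.erase u, (2:ℝ) ^ t x • r1 (f x) := by
    apply Finset.sum_congr rfl
    intro x hx
    rw [Function.update_of_ne (Finset.ne_of_mem_erase hx)]
  rw [h1, Function.update_self, pow_succ, mul_two, add_smul]
  abel

/-- square submatrix picked by `φ` -/
def sq (f : T → Fin k → ℝ) (φ : Fin k → T) : Matrix (Fin k) (Fin k) ℝ := fun i => f (φ i)

lemma sq_inj (f : T → Fin k → ℝ) (φ : Fin k → T) (h : (sq f φ).det ≠ 0) : Function.Injective φ := by
  intro i j hij
  by_contra hne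
  apply h
  apply Matrix.det_zero_of_row_eq hne
  unfold sq
  rw [hij]

lemma sq_lower (f : T → Fin k → ℝ) (t : T → ℕ) (φ : Fin k → T) (h : (sq f φ).det ≠ 0) :
    (∏ i, (2:ℝ) ^ t (φ i)) * (sq f φ).det ^ 2 ≤ (gram f t).det := by
  classical
  have hinj := sq_inj f φ h
  set B : Matrix (Fin k) (Fin k) ℝ := ∑ i, (2:ℝ) ^ t (φ i) • r1 (f (φ i)) with hB
  have h1 : B = (sq f φ)ᵀ * Matrix.diagonal (fun i => (2:ℝ) ^ t (φ i)) * (sq f φ) := by
    ext a b
    rw [hB, Matrix.sum_apply, Matrix.mul_apply]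
    apply Finset.sum_congr rfl
    intro i _
    rw [Matrix.mul_diagonal]
    simp [r1, vecMulVec_apply, sq]
    ring
  have hdet : B.det = (∏ i, (2:ℝ) ^ t (φ i)) * (sq f φ).det ^ 2 := by
    rw [h1, Matrix.det_mul, Matrix.det_mul, Matrix.det_transpose, Matrix.det_diagonal]
    ring
  have hBpsd : B.PosSemidef := by
    rw [hB]
    exact Matrix.posSemidef_sum (Finset.univ) (fun (i : Fin k) _ =>
      smul_r1_psd ((2:ℝ) ^ t (φ i)) (by positivity) (f (φ i)))
  have hBpd : B.PosDef := by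
    apply Matrix.PosDef.of_dotProduct_mulVec_pos hBpsd.isHermitian
    intro x hx
    have h2 := hBpsd.dotProduct_mulVec_nonneg x
    rcases h2.lt_or_eq with h3 | h3
    · exact h3
    · exfalso
      apply hx
      have h4 : star x ⬝ᵥ (B *ᵥ x) = ∑ i, 2 ^ t (φ i) * (f (φ i) ⬝ᵥ x) ^ 2 :=
        gram_quad (T := Fin k) (fun i => f (φ i)) (fun i => t (φ i)) x
      rw [h4] at h3
      have h0 : ∀ u ∈ (univ : Finset (Fin k)), (0:ℝ) ≤ 2 ^ t (φ u) * (f (φ u) ⬝ᵥ x) ^ 2 :=
        fun u _ => by positivity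
      have h5 : (sq f φ) *ᵥ x = 0 := by
        funext i
        have h1 := (Finset.sum_eq_zero_iff_of_nonneg h0).mp h3.symm i (Finset.mem_univ i)
        have h2 : (0:ℝ) < 2 ^ t (φ i) := by positivity
        rcases mul_eq_zero.mp h1 with h3 | h3
        · exact absurd h3 h2.ne'
        · exact pow_eq_zero_iff (two_ne_zero) |>.mp h3
      exact Matrix.eq_zero_of_mulVec_eq_zero h h5
  rw [← hdet]
  have h2 := (det_le_add_sum (univ \ univ.image φ) B hBpd (fun u => (2:ℝ) ^ t u)
    (fun u => by positivity) f).2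
  have h3 : B + ∑ u ∈ univ \ univ.image φ, (2:ℝ) ^ t u • r1 (f u) = gram f t := by
    unfold gram
    rw [← Finset.sum_sdiff (Finset.subset_univ (univ.image φ)), add_comm]
    congr 1
    rw [Finset.sum_image (fun a _ b _ h => hinj h)]
  rw [h3] at h2
  exact h2

lemma exchange (f : T → Fin k → ℝ) (φ : Fin k → T) (u : T) :
    (sq f φ).det • f u = ∑ i, (sq f (Function.update φ i u)).det • f (φ i) := by
  have h := Matrix.mulVec_cramer (sq f φ)ᵀ (f u)
  rw [Matrix.det_transpose] at h
  rw [← h]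
  funext j
  simp only [Matrix.mulVec, dotProduct, Matrix.transpose_apply, Finset.sum_apply, Pi.smul_apply,
    smul_eq_mul]
  apply Finset.sum_congr rfl
  intro i _
  rw [Matrix.cramer_transpose_apply, mul_comm]
  have h2 : (sq f φ).updateRow i (f u) = sq f (Function.update φ i u) := by
    ext a b
    by_cases hab : a = i
    · subst hab
      simp [sq]
    · simp [sq, hab]
  rw [h2]
  rfl

lemma exists_sq (f : T → Fin k → ℝ) (hspan : ∀ c : Fin k → ℝ, (∀ u, f u ⬝ᵥ c = 0) → c = 0) :
    ∃ φ : Fin k → T, (sq f φ).det ≠ 0 := by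
  classical
  have htop : Submodule.span ℝ (Set.range f) = ⊤ := by
    by_contra hne
    obtain ⟨g, hg0, hg⟩ := Submodule.exists_le_ker_of_lt_top _ (lt_top_iff_ne_top.mpr hne)
    apply hg0
    have hc : (fun i => g (Pi.single i 1)) = (0 : Fin k → ℝ) := by
      apply hspan
      intro u
      have h1 : g (f u) = 0 := hg (Submodule.subset_span ⟨u, rfl⟩)
      have h2 : f u = ∑ i, f u i • (Pi.single i (1:ℝ) : Fin k → ℝ) := by
        funext j
        simp [Finset.sum_apply, Pi.single_apply]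
      rw [h2, map_sum] at h1
      rw [← h1]
      simp [dotProduct]
    apply LinearMap.ext
    intro x
    have h2 : x = ∑ i, x i • (Pi.single i (1:ℝ) : Fin k → ℝ) := by
      funext j
      simp [Finset.sum_apply, Pi.single_apply]
    rw [h2, map_sum]
    simp only [map_smul, LinearMap.zero_apply]
    apply Finset.sum_eq_zero
    intro i _
    have := congrFun hc i
    simp only [Pi.zero_apply] at this
    rw [this, smul_zero]
  obtain ⟨b, hb1, hb2, hb3⟩ := exists_linearIndependent ℝ (Set.range f)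
  rw [htop] at hb2
  have hspan' : ⊤ ≤ Submodule.span ℝ (Set.range (Subtype.val : b → (Fin k → ℝ))) := by
    rw [Subtype.range_coe, hb2]
  let B := Module.Basis.mk hb3 hspan'
  have hfin : Fintype b := by
    have : Set.Finite b := (Set.finite_range f).subset hb1
    exact this.fintype
  have hcard : Fintype.card b = k := by
    have := Module.finrank_eq_card_basis B
    rw [Module.finrank_fin_fun] at this
    exact this.symm
  let e : Fin k ≃ b := (Fintype.equivFinOfCardEq hcard).symm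
  have hch : ∀ i : Fin k, ∃ u : T, f u = (e i).1 := fun i => hb1 (e i).2
  choose φ hφ using hch
  refine ⟨φ, ?_⟩
  have h1 : LinearIndependent ℝ (fun i => sq f φ i) := by
    have : (fun i => sq f φ i) = (Subtype.val : b → (Fin k → ℝ)) ∘ e := by
      funext i
      exact hφ i
    rw [this]
    exact hb3.comp e e.injective
  have h2 : IsUnit (sq f φ) := Matrix.linearIndependent_rows_iff_isUnit.mp h1
  exact ((Matrix.isUnit_iff_isUnit_det _).mp h2).ne_zero

lemma sum_levels {ι : Type} [Fintype ι] (t : ι → ℕ) (N : ℕ) (hN : ∀ i, t i ≤ N) :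
    ∑ i, t i = ∑ j ∈ range N, (univ.filter (fun i => j < t i)).card := by
  simp only [Finset.card_filter]
  rw [Finset.sum_comm]
  apply Finset.sum_congr rfl
  intro i _
  rw [← Finset.card_filter]
  have : (range N).filter (fun j => j < t i) = range (t i) := by
    ext j
    simp only [Finset.mem_filter, Finset.mem_range]
    have := hN i
    omega
  rw [this, Finset.card_range]

lemma opt_lower (f : T → Fin k → ℝ) (ε : ℝ)
    (hrank : ∀ S I : Finset T, (∀ c : Fin k → ℝ, (∀ i ∈ I, f i ⬝ᵥ c = 0) → ∀ u ∈ S, f u ⬝ᵥ c = 0) →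
      ε * S.card ≤ I.card) (t : T → ℕ) (φ : Fin k → T) (hφ : (sq f φ).det ≠ 0)
    (hmax : ∀ φ' : Fin k → T, (sq f φ').det ≠ 0 → ∑ i, t (φ' i) ≤ ∑ i, t (φ i)) :
    ε * ∑ u, t u ≤ ∑ i, t (φ i) := by
  classical
  set N := ∑ u, t u with hNdef
  have hN1 : ∀ u, t u ≤ N := fun u => Finset.single_le_sum (fun _ _ => Nat.zero_le _) (Finset.mem_univ u)
  have e1 := sum_levels t N hN1
  have e2 := sum_levels (fun i => t (φ i)) N (fun i => hN1 (φ i))
  have hNr : (N : ℝ) = ∑ j ∈ range N, ((univ.filter (fun i => j < t i)).card : ℝ) := by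
    rw [← Nat.cast_sum, ← e1]
  have hNr2 : ((∑ i, t (φ i) : ℕ) : ℝ)
      = ∑ j ∈ range N, ((univ.filter (fun i => j < t (φ i))).card : ℝ) := by
    rw [e2, Nat.cast_sum]
  rw [hNr, hNr2, Finset.mul_sum]
  apply Finset.sum_le_sum
  intro j _
  have key := hrank (univ.filter (fun u => j < t u)) ((univ.filter (fun i => j < t (φ i))).image φ) ?_
  · refine key.trans ?_
    exact_mod_cast Finset.card_image_le
  · intro c hc u hu
    have hu' : j < t u := by simpa using hu
    have hx := exchange f φ u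
    have h1 : (sq f φ).det * (f u ⬝ᵥ c) = 0 := by
      have h2 : ((sq f φ).det • f u) ⬝ᵥ c = 0 := by
        rw [hx, sum_dotProduct]
        apply Finset.sum_eq_zero
        intro i _
        rw [smul_dotProduct]
        by_cases hi : j < t (φ i)
        · rw [hc (φ i) (Finset.mem_image_of_mem φ (by simp [hi])), smul_zero]
        · have h3 : (sq f (Function.update φ i u)).det = 0 := by
            by_contra h4
            have h5 := hmax _ h4
            rw [← Finset.add_sum_erase _ _ (Finset.mem_univ i), ← Finset.add_sum_erase univ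
              (fun i => t (φ i)) (Finset.mem_univ i)] at h5
            have h6 : ∑ x ∈ univ.erase i, t (Function.update φ i u x)
                = ∑ x ∈ univ.erase i, t (φ x) := by
              apply Finset.sum_congr rfl
              intro x hx
              rw [Function.update_of_ne (Finset.ne_of_mem_erase hx)]
            rw [h6, Function.update_self] at h5
            omega
          rw [h3, zero_smul]
      rw [smul_dotProduct, smul_eq_mul] at h2
      exact h2
    rcases mul_eq_zero.mp h1 with h2 | h2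
    · exact absurd h2 hφ
    · exact h2

theorem exists_weights (f : T → Fin k → ℝ) (ε : ℝ) (hε : 0 < ε)
    (hspan : ∀ c : Fin k → ℝ, (∀ u, f u ⬝ᵥ c = 0) → c = 0)
    (hrank : ∀ S I : Finset T, (∀ c : Fin k → ℝ, (∀ i ∈ I, f i ⬝ᵥ c = 0) → ∀ u ∈ S, f u ⬝ᵥ c = 0) →
      ε * S.card ≤ I.card) :
    ∃ t : T → ℕ, ∀ u, ∃ c : Fin k → ℝ, f u ⬝ᵥ c ≠ 0 ∧
      ε / 2 * ∑ v, 2 ^ t v * (f v ⬝ᵥ c) ^ 2 ≤ 2 ^ t u * (f u ⬝ᵥ c) ^ 2 := by
  classical
  have main : ∃ t : T → ℕ, ∀ u, ε / 2 ≤ 2 ^ t u * (f u ⬝ᵥ ((gram f t)⁻¹ *ᵥ f u)) := by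
    by_contra hcon
    push Not at hcon
    have hpd := fun t => gram_posDef f t hspan
    -- chain
    have hchain : ∀ N : ℕ, ∃ t : T → ℕ, ∑ u, t u = N ∧
        (gram f t).det ≤ (gram f (fun _ => 0)).det * (1 + ε / 2) ^ N := by
      intro N
      induction N with
      | zero => exact ⟨fun _ => 0, by simp, by simp⟩
      | succ N ih =>
        obtain ⟨t, ht1, ht2⟩ := ih
        obtain ⟨u, hu⟩ := hcon t
        refine ⟨Function.update t u (t u + 1), ?_, ?_⟩
        · rw [← Finset.add_sum_erase _ _ (Finset.mem_univ u)]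
          have h6 : ∑ x ∈ univ.erase u, (Function.update t u (t u + 1) x)
                = ∑ x ∈ univ.erase u, t x := by
            apply Finset.sum_congr rfl
            intro x hx
            rw [Function.update_of_ne (Finset.ne_of_mem_erase hx)]
          rw [h6, Function.update_self]
          rw [← Finset.add_sum_erase _ _ (Finset.mem_univ u)] at ht1
          omega
        · rw [gram_update, det_add_r1 _ (hpd t), pow_succ, ← mul_assoc]
          have h1 : 0 < (gram f t).det := (hpd t).det_pos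
          have h2 : (0:ℝ) ≤ 1 + ε / 2 := by positivity
          calc (gram f t).det * (1 + 2 ^ t u * (f u ⬝ᵥ ((gram f t)⁻¹ *ᵥ f u)))
              ≤ (gram f t).det * (1 + ε / 2) := by
                apply mul_le_mul_of_nonneg_left _ h1.le
                linarith
            _ ≤ _ := mul_le_mul_of_nonneg_right ht2 h2
    -- lower bound
    obtain ⟨φ0, hφ0⟩ := exists_sq f hspan
    set P := univ.filter (fun φ : Fin k → T => (sq f φ).det ≠ 0) with hP
    have hPne : P.Nonempty := ⟨φ0, by simp [hP, hφ0]⟩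
    obtain ⟨φ1, hφ1, hφ1min⟩ := Finset.exists_min_image P (fun φ => (sq f φ).det ^ 2) hPne
    set c0 := (sq f φ1).det ^ 2 with hc0
    have hc0pos : 0 < c0 := by
      have : (sq f φ1).det ≠ 0 := by simpa [hP] using hφ1
      positivity
    have hlow : ∀ t : T → ℕ, (2:ℝ) ^ (ε * (∑ u, t u : ℕ)) * c0 ≤ (gram f t).det := by
      intro t
      obtain ⟨φ, hφ, hφmax⟩ := Finset.exists_max_image P (fun φ => ∑ i, t (φ i)) hPne
      have hφd : (sq f φ).det ≠ 0 := by simpa [hP] using hφ
      have h1 := opt_lower f ε hrank t φ hφd (fun φ' h' => hφmax φ' (by simp [hP, h']))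
      have h2 := sq_lower f t φ hφd
      refine le_trans ?_ h2
      rw [Finset.prod_pow_eq_pow_sum]
      apply mul_le_mul _ (hφ1min φ hφ) hc0pos.le (by positivity)
      rw [← Real.rpow_natCast]
      exact Real.rpow_le_rpow_of_exponent_le (by norm_num) h1
    have h2e : 1 + ε / 2 < (2:ℝ) ^ ε := by
      rw [Real.rpow_def_of_pos (by norm_num : (0:ℝ) < 2)]
      have h1 := Real.add_one_le_exp (Real.log 2 * ε)
      have h2 : (0.6931471803 : ℝ) < Real.log 2 := Real.log_two_gt_d9
      nlinarith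
    have hpos : (0:ℝ) < 1 + ε / 2 := by positivity
    obtain ⟨N, hN⟩ := pow_unbounded_of_one_lt ((gram f (fun _ => 0)).det / c0)
      (show (1:ℝ) < (2:ℝ) ^ ε / (1 + ε / 2) by rwa [one_lt_div hpos])
    obtain ⟨t, ht1, ht2⟩ := hchain N
    have h3 := (hlow t).trans ht2
    rw [ht1] at h3
    rw [Real.rpow_mul (by norm_num), Real.rpow_natCast] at h3
    rw [div_pow, div_lt_div_iff₀ hc0pos (pow_pos hpos N)] at hN
    linarith
  obtain ⟨t, ht⟩ := main
  refine ⟨t, fun u => ⟨(gram f t)⁻¹ *ᵥ f u, ?_, ?_⟩⟩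
  · intro h0
    have := ht u
    rw [h0, mul_zero] at this
    linarith
  · have hq := gram_quad f t ((gram f t)⁻¹ *ᵥ f u)
    have hu : IsUnit (gram f t).det := (gram_posDef f t hspan).det_pos.ne'.isUnit
    rw [Matrix.mulVec_mulVec, Matrix.mul_nonsing_inv _ hu, Matrix.one_mulVec, dotProduct_comm] at hq
    rw [← hq]
    have h1 := ht u
    set r := f u ⬝ᵥ ((gram f t)⁻¹ *ᵥ f u) with hr
    have h2 : (0:ℝ) < 2 ^ t u := by positivity
    have h3 : 0 < r := by
      by_contra h
      push Not at h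
      have := mul_nonpos_of_nonneg_of_nonpos h2.le h
      linarith
    calc ε / 2 * r ≤ (2 ^ t u * r) * r := mul_le_mul_of_nonneg_right h1 h3.le
      _ = 2 ^ t u * r ^ 2 := by ring

end TH994.Mult
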