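import Mathlib
set_option autoImplicit false
set_option linter.unusedSectionVars false
namespace TH994.Mult
open Finset

variable {V : Type}

/-- a walk of total length `ρ` from `u0` -/
inductive Reach (adj : V → V → Prop) (l : V → V → ℝ) (u0 : V) : ℝ → V → Prop
  | refl : Reach adj l u0 0 u0
  | step {ρ : ℝ} {v w : V} : Reach adj l u0 ρ v → adj v w → Reach adj l u0 (ρ + l v w) w

variable {adj : V → V → Prop} {l : V → V → ℝ} {u0 : V}

lemma Reach.nonneg (hl : ∀ u v, 0 ≤ l u v) {ρ : ℝ} {v : V} (h : Reach adj l u0 ρ v) : 0 ≤ ρ := by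
  induction h with
  | refl => exact le_refl _
  | step h ha ih => exact add_nonneg ih (hl _ _)

/-- values at `v` -/
def vals (adj : V → V → Prop) (l : V → V → ℝ) (u0 : V) (J : ℝ) (v : V) : Set ℝ :=
  {s | s = 0 ∨ ∃ ρ, Reach adj l u0 ρ v ∧ s = 1 - ρ / J}

/-- the cutoff function -/
noncomputable def psi (adj : V → V → Prop) (l : V → V → ℝ) (u0 : V) (J : ℝ) (v : V) : ℝ :=
  sSup (vals adj l u0 J v)

lemma vals_bdd (hl : ∀ u v, 0 ≤ l u v) {J : ℝ} (hJ : 0 < J) (v : V) :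
    BddAbove (vals adj l u0 J v) := by
  refine ⟨1, ?_⟩
  rintro s (h | ⟨ρ, h1, h2⟩)
  · rw [h]; norm_num
  · rw [h2]
    have := div_nonneg (h1.nonneg hl) hJ.le
    linarith

lemma vals_ne {J : ℝ} (v : V) : (vals adj l u0 J v).Nonempty := ⟨0, Or.inl rfl⟩

lemma psi_nonneg (hl : ∀ u v, 0 ≤ l u v) {J : ℝ} (hJ : 0 < J) (v : V) : 0 ≤ psi adj l u0 J v :=
  le_csSup (vals_bdd hl hJ v) (Or.inl rfl)

lemma psi_start (hl : ∀ u v, 0 ≤ l u v) {J : ℝ} (hJ : 0 < J) : 1 ≤ psi adj l u0 J u0 :=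
  le_csSup (vals_bdd hl hJ u0) (Or.inr ⟨0, Reach.refl, by simp⟩)

lemma psi_lip (hl : ∀ u v, 0 ≤ l u v) {J : ℝ} (hJ : 0 < J) {v w : V} (h : adj v w) :
    psi adj l u0 J v ≤ psi adj l u0 J w + l v w / J := by
  apply csSup_le (vals_ne v)
  rintro s (hs | ⟨ρ, h1, h2⟩)
  · rw [hs]
    exact add_nonneg (psi_nonneg hl hJ w) (div_nonneg (hl _ _) hJ.le)
  · have h3 : 1 - (ρ + l v w) / J ≤ psi adj l u0 J w :=
      le_csSup (vals_bdd hl hJ w) (Or.inr ⟨_, h1.step h, rfl⟩)
    rw [h2]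
    rw [add_div] at h3
    linarith

lemma psi_supp {J : ℝ} (hJ : 0 < J) {v : V} (h : 0 < psi adj l u0 J v) :
    ∃ ρ, ρ < J ∧ Reach adj l u0 ρ v := by
  obtain ⟨s, hs, hpos⟩ := exists_lt_of_lt_csSup (vals_ne v) h
  rcases hs with hs | ⟨ρ, h1, h2⟩
  · rw [hs] at hpos; exact absurd hpos (lt_irrefl _)
  · refine ⟨ρ, ?_, h1⟩
    rw [h2] at hpos
    have : ρ / J < 1 := by linarith
    rwa [div_lt_one hJ] at this

section count
variable [Fintype V] [DecidableEq V] {H : Type} [NormedAddCommGroup H]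

/-- points of `T` at distance at most `1/2` -/
noncomputable def near (T : Finset V) (e : V → H) (z : V) : Finset V :=
  T.filter (fun v => ‖e v - e z‖ ≤ 1 / 2)

open Classical in
/-- neighbours together with the vertex -/
noncomputable def nb (adj : V → V → Prop) (z : V) : Finset V := insert z (univ.filter (fun w => adj z w))

/-- centres -/
noncomputable def ctr (T : Finset V) (e : V → H) (adj : V → V → Prop) (u0 : V) : ℕ → Finset V
  | 0 => {u0}
  | (i + 1) => (ctr T e adj u0 i).biUnion (fun z => (near T e z).biUnion (fun z' => nb adj z'))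

lemma ctr_sub (T : Finset V) (e : V → H) (hT : ∀ u v, adj u v → u ∈ T ∧ v ∈ T) (hu0 : u0 ∈ T) (i : ℕ) :
    ctr T e adj u0 i ⊆ T := by
  induction i with
  | zero => simp [ctr, hu0]
  | succ i ih =>
    intro x hx
    unfold ctr at hx
    rw [Finset.mem_biUnion] at hx
    obtain ⟨z, hz, hx⟩ := hx
    rw [Finset.mem_biUnion] at hx
    obtain ⟨z', hz', hx⟩ := hx
    unfold nb at hx
    rw [Finset.mem_insert] at hx
    rcases hx with hx | hx
    · rw [hx]
      exact (Finset.mem_filter.mp hz').1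
    · simp only [Finset.mem_filter, Finset.mem_univ, true_and] at hx
      exact (hT _ _ hx).2

lemma near_self (T : Finset V) (e : V → H) {z : V} (hz : z ∈ T) : z ∈ near T e z := by
  simp [near, hz]

lemma ctr_mono (T : Finset V) (e : V → H) (hT : ∀ u v, adj u v → u ∈ T ∧ v ∈ T) (hu0 : u0 ∈ T) (i : ℕ) :
    ctr T e adj u0 i ⊆ ctr T e adj u0 (i + 1) := by
  intro x hx
  have hxT := ctr_sub T e hT hu0 i hx
  show x ∈ (ctr T e adj u0 i).biUnion (fun z => (near T e z).biUnion (fun z' => nb adj z'))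
  rw [Finset.mem_biUnion]
  refine ⟨x, hx, ?_⟩
  rw [Finset.mem_biUnion]
  exact ⟨x, near_self T e hxT, by simp [nb]⟩

lemma ctr_mono' (T : Finset V) (e : V → H) (hT : ∀ u v, adj u v → u ∈ T ∧ v ∈ T) (hu0 : u0 ∈ T)
    {i j : ℕ} (hij : i ≤ j) : ctr T e adj u0 i ⊆ ctr T e adj u0 j := by
  induction hij with
  | refl => exact subset_rfl
  | step _ ih => exact ih.trans (ctr_mono T e hT hu0 _)

lemma ctr_card (T : Finset V) (e : V → H) (c0 Δ : ℕ) (hc : ∀ z, (near T e z).card ≤ c0)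
    (hd : ∀ z, (nb adj z).card ≤ Δ + 1) (i : ℕ) :
    (ctr T e adj u0 i).card ≤ (c0 * (Δ + 1)) ^ i := by
  induction i with
  | zero => simp [ctr]
  | succ i ih =>
    show ((ctr T e adj u0 i).biUnion (fun z => (near T e z).biUnion (fun z' => nb adj z'))).card ≤ _
    refine (Finset.card_biUnion_le_card_mul _ _ (c0 * (Δ + 1)) ?_).trans ?_
    · intro z _
      refine (Finset.card_biUnion_le_card_mul _ _ (Δ + 1) (fun z' _ => hd z')).trans ?_
      exact Nat.mul_le_mul_right _ (hc z)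
    · rw [pow_succ]
      exact Nat.mul_le_mul_right _ ih

lemma reach_ctr (T : Finset V) (e : V → H) (hT : ∀ u v, adj u v → u ∈ T ∧ v ∈ T) (hu0 : u0 ∈ T)
    {ρ : ℝ} {v : V} (h : Reach adj (fun a b => ‖e a - e b‖) u0 ρ v) :
    ∃ i : ℕ, ∃ z ∈ ctr T e adj u0 i, v ∈ near T e z ∧ (i : ℝ) / 2 + ‖e v - e z‖ ≤ ρ := by
  induction h with
  | refl => exact ⟨0, u0, by simp [ctr], near_self T e hu0, by simp⟩
  | @step ρ v w h ha ih =>
    obtain ⟨i, z, hz, hv, hle⟩ := ih
    have hw : w ∈ T := (hT _ _ ha).2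
    have htri : ‖e w - e z‖ ≤ ‖e v - e w‖ + ‖e v - e z‖ := by
      have : e w - e z = -(e v - e w) + (e v - e z) := by abel
      rw [this]
      refine (norm_add_le _ _).trans ?_
      rw [norm_neg]
    by_cases hc : ‖e w - e z‖ ≤ 1 / 2
    · refine ⟨i, z, hz, ?_, ?_⟩
      · simp [near, hw]
        simpa using hc
      · linarith
    · push Not at hc
      refine ⟨i + 1, w, ?_, near_self T e hw, ?_⟩
      · show w ∈ (ctr T e adj u0 i).biUnion (fun z => (near T e z).biUnion (fun z' => nb adj z'))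
        rw [Finset.mem_biUnion]
        refine ⟨z, hz, ?_⟩
        rw [Finset.mem_biUnion]
        exact ⟨v, hv, by simp [nb, ha]⟩
      · rw [sub_self, norm_zero]
        push_cast
        linarith

theorem reach_count (T : Finset V) (e : V → H) (hT : ∀ u v, adj u v → u ∈ T ∧ v ∈ T) (hu0 : u0 ∈ T)
    (c0 Δ k : ℕ) (hk : 1 ≤ k) (hc : ∀ z, (near T e z).card ≤ c0)
    (hd : ∀ z, (nb adj z).card ≤ Δ + 1) :
    ∃ S : Finset V, S.card ≤ (c0 * (Δ + 1)) ^ k ∧
      ∀ ρ v, ρ < (k : ℝ) / 2 → Reach adj (fun a b => ‖e a - e b‖) u0 ρ v → v ∈ S := by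
  refine ⟨(ctr T e adj u0 (k - 1)).biUnion (near T e), ?_, ?_⟩
  · refine (Finset.card_biUnion_le_card_mul _ _ c0 (fun z _ => hc z)).trans ?_
    obtain ⟨m, rfl⟩ : ∃ m, k = m + 1 := ⟨k - 1, by omega⟩
    rw [pow_succ, Nat.add_sub_cancel]
    apply Nat.mul_le_mul (ctr_card T e c0 Δ hc hd m)
    exact Nat.le_mul_of_pos_right _ (Nat.succ_pos _)
  · intro ρ v hρ hr
    obtain ⟨i, z, hz, hv, hle⟩ := reach_ctr T e hT hu0 hr
    rw [Finset.mem_biUnion]
    refine ⟨z, ?_, hv⟩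
    have h1 : (i : ℝ) / 2 < (k : ℝ) / 2 := by
      have := norm_nonneg (e v - e z)
      linarith
    have h2 : i < k := by
      have : (i : ℝ) < k := by linarith
      exact_mod_cast this
    exact ctr_mono' T e hT hu0 (by omega) hz

end count

end TH994.Mult
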