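import Mathlib
import Pool.Agent.TH994.Mult.Walk
set_option autoImplicit false
set_option linter.unusedSectionVars false
namespace TH994.Mult
open Finset

variable {V : Type} [Fintype V] [DecidableEq V] {H : Type} [NormedAddCommGroup H]
  [InnerProductSpace ℝ H] [FiniteDimensional ℝ H]


/-- unit vectors -/
noncomputable def uv (f : V → H) (u : V) : H := (‖f u‖)⁻¹ • f u

lemma f_eq (f : V → H) (u : V) : f u = ‖f u‖ • uv f u := by
  unfold uv
  by_cases h : ‖f u‖ = 0
  · rw [h, zero_smul]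
    exact norm_eq_zero.mp h
  · rw [smul_smul, mul_inv_cancel₀ h, one_smul]

lemma uv_norm (f : V → H) (u : V) (h : f u ≠ 0) : ‖uv f u‖ = 1 := by
  unfold uv
  rw [norm_smul, norm_inv, norm_norm, inv_mul_cancel₀ (norm_ne_zero_iff.mpr h)]

/-- hypotheses on the vectors -/
structure Iso (A : V → V → ℝ) (f : V → H) (T : Finset V) (Δ : ℕ) (ε : ℝ) : Prop where
  eps : 0 < ε
  symm : ∀ u v, A u v = A v u
  off : ∀ u v, u ≠ v → A u v ≤ 0
  deg : ∀ u, (univ.filter (fun v => v ≠ u ∧ A u v ≠ 0)).card ≤ Δ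
  ker : ∀ u, ∑ v, A u v • f v = 0
  bes : ∀ b : H, ∑ u, inner ℝ b (f u) ^ 2 ≤ ‖b‖ ^ 2
  out : ∀ u, u ∉ T → f u = 0
  big : ∀ u, u ∈ T → ε / 2 ≤ ‖f u‖ ^ 2

variable {A : V → V → ℝ} {f : V → H} {T : Finset V} {Δ : ℕ} {ε : ℝ}

lemma Iso.ne (h : Iso A f T Δ ε) {u : V} (hu : u ∈ T) : f u ≠ 0 := by
  intro h0
  have h1 := h.big u hu
  rw [h0, norm_zero] at h1
  have := h.eps
  norm_num at h1
  linarith

lemma Iso.bes' (h : Iso A f T Δ ε) (b : H) : ∑ u, inner ℝ b (uv f u) ^ 2 ≤ 2 / ε * ‖b‖ ^ 2 := by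
  have hε := h.eps
  calc ∑ u, inner ℝ b (uv f u) ^ 2 ≤ ∑ u, 2 / ε * inner ℝ b (f u) ^ 2 := by
        apply Finset.sum_le_sum
        intro u _
        by_cases hu : u ∈ T
        · unfold uv
          rw [inner_smul_right, mul_pow]
          apply mul_le_mul_of_nonneg_right _ (sq_nonneg _)
          have h1 := h.big u hu
          have h2 : 0 < ε / 2 := by positivity
          rw [inv_pow]
          have h3 := inv_anti₀ h2 h1
          rwa [inv_div] at h3
        · have : uv f u = 0 := by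
            unfold uv
            rw [h.out u hu, smul_zero]
          rw [this, inner_zero_right]
          have : 0 ≤ 2 / ε * inner ℝ b (f u) ^ 2 := by positivity
          simpa using this
    _ = 2 / ε * ∑ u, inner ℝ b (f u) ^ 2 := by rw [Finset.mul_sum]
    _ ≤ 2 / ε * ‖b‖ ^ 2 := mul_le_mul_of_nonneg_left (h.bes b) (by positivity)

lemma Iso.near_card (h : Iso A f T Δ ε) (c0 : ℕ) (hc0 : 3 ≤ ε * c0) (z : V) :
    (near T (uv f) z).card ≤ c0 := by
  have hε := h.eps
  by_cases hz : z ∈ T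
  · have h1 := h.bes' (uv f z)
    have hz1 := uv_norm f z (h.ne hz)
    rw [hz1] at h1
    have h2 : ∑ u ∈ near T (uv f) z, (49 / 64 : ℝ) ≤ ∑ u, inner ℝ (uv f z) (uv f u) ^ 2 := by
      refine (Finset.sum_le_sum ?_).trans (Finset.sum_le_univ_sum_of_nonneg (fun u => sq_nonneg _))
      intro u hu
      have hu' := Finset.mem_filter.mp hu
      have hu1 := uv_norm f u (h.ne hu'.1)
      have h3 := norm_sub_sq_real (uv f u) (uv f z)
      rw [hu1, hz1] at h3
      have h4 : ‖uv f u - uv f z‖ ^ 2 ≤ (1 / 2) ^ 2 := by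
        apply pow_le_pow_left₀ (norm_nonneg _) hu'.2
      rw [real_inner_comm] at h3
      have h5 : (7 / 8 : ℝ) ≤ inner ℝ (uv f z) (uv f u) := by linarith
      nlinarith
    rw [Finset.sum_const, nsmul_eq_mul] at h2
    have h3 : ((near T (uv f) z).card : ℝ) * (49 / 64) ≤ 2 / ε * 1 ^ 2 := h2.trans h1
    have h4 : ((near T (uv f) z).card : ℝ) * (49 / 64) * ε ≤ 2 := by
      have := mul_le_mul_of_nonneg_right h3 hε.le
      rw [one_pow, mul_one, div_mul_cancel₀ _ hε.ne'] at this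
      exact this
    by_contra hlt
    push Not at hlt
    have h5 : (c0 : ℝ) < (near T (uv f) z).card := by exact_mod_cast hlt
    have h6 : ε * c0 < ε * (near T (uv f) z).card := by
      apply mul_lt_mul_of_pos_left h5 hε
    nlinarith
  · have : near T (uv f) z = ∅ := by
      rw [Finset.eq_empty_iff_forall_notMem]
      intro v hv
      have hv' := Finset.mem_filter.mp hv
      have hv1 := uv_norm f v (h.ne hv'.1)
      have hz0 : uv f z = 0 := by
        unfold uv
        rw [h.out z hz, smul_zero]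
      have := hv'.2
      rw [hz0, sub_zero, hv1] at this
      norm_num at this
    rw [this]
    simp

/-- adjacency inside `T` -/
def adjT (A : V → V → ℝ) (T : Finset V) (u v : V) : Prop := u ∈ T ∧ v ∈ T ∧ u ≠ v ∧ A u v ≠ 0

lemma Iso.nb_card (h : Iso A f T Δ ε) (z : V) : (nb (adjT A T) z).card ≤ Δ + 1 := by
  classical
  unfold nb
  refine (Finset.card_insert_le _ _).trans ?_
  apply Nat.add_le_add_right
  refine le_trans (Finset.card_le_card ?_) (h.deg z)
  intro v hv
  simp only [Finset.mem_filter, Finset.mem_univ, true_and] at hv ⊢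
  exact ⟨hv.2.2.1.symm, hv.2.2.2⟩

/-- the quadratic form -/
def qf (A : V → V → ℝ) (y : V → ℝ) : ℝ := ∑ u, ∑ v, y u * A u v * y v

lemma proj_bound (h : Iso A f T Δ ε) (W : Submodule ℝ H) (hW : Module.finrank ℝ W ≤ 2) :
    ∑ u, ‖W.starProjection (uv f u)‖ ^ 2 ≤ 4 / ε := by
  have hε := h.eps
  set b := stdOrthonormalBasis ℝ W with hb
  have h1 : ∀ x : H, ‖W.starProjection x‖ ^ 2 = ∑ i, inner ℝ ((b i : W) : H) x ^ 2 := by
    intro x
    rw [Submodule.starProjection_apply, ← Submodule.coe_norm]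
    rw [← b.sum_sq_norm_inner_right]
    apply Finset.sum_congr rfl
    intro i _
    rw [Real.norm_eq_abs, sq_abs]
    congr 1
    rw [Submodule.coe_inner]
    have := Submodule.inner_starProjection_left_eq_right W ((b i : W) : H) x
    rw [Submodule.starProjection_apply W x] at this
    rw [← this]
    congr 1
    rw [Submodule.starProjection_eq_self_iff]
    exact (b i).2
  simp_rw [h1]
  rw [Finset.sum_comm]
  calc ∑ i, ∑ u, inner ℝ ((b i : W) : H) (uv f u) ^ 2 ≤ ∑ i, 2 / ε := by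
        apply Finset.sum_le_sum
        intro i _
        have h2 := h.bes' ((b i : W) : H)
        have h3 : ‖((b i : W) : H)‖ = 1 := by
          rw [← Submodule.coe_norm]
          exact b.orthonormal.1 i
        rw [h3, one_pow, mul_one] at h2
        exact h2
    _ = (Module.finrank ℝ W : ℝ) * (2 / ε) := by simp
    _ ≤ 2 * (2 / ε) := by
        apply mul_le_mul_of_nonneg_right _ (by positivity)
        exact_mod_cast hW
    _ = 4 / ε := by ring

theorem test_vector (h : Iso A f T Δ ε) (hT : T.Nonempty) (k c0 : ℕ) (hk : 1 ≤ k)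
    (hkΔ : 16 * (Δ : ℝ) ≤ ε * (k : ℝ) ^ 2) (hc0 : 3 ≤ ε * c0) :
    ∃ (y : V → ℝ) (S : Finset V), y ≠ 0 ∧ S.card ≤ (c0 * (Δ + 1)) ^ k ∧ (∀ v, v ∉ S → y v = 0) ∧
      qf A y ≤ 0 := by
  classical
  have hε := h.eps
  -- heaviest edge
  set Qf : V × V → ℝ := fun p => -A p.1 p.2 * ‖f p.1‖ * ‖f p.2‖ * ‖uv f p.1 - uv f p.2‖ ^ 2 with hQf
  obtain ⟨⟨u0, v0⟩, hmem, hmax⟩ := Finset.exists_max_image (T ×ˢ T) Qf (hT.product hT)
  rw [Finset.mem_product] at hmem
  obtain ⟨hu0, hv0⟩ := hmem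
  simp only at hu0 hv0
  set Q := Qf (u0, v0) with hQ
  have hQ0 : 0 ≤ Q := by
    have := hmax (u0, u0) (Finset.mem_product.mpr ⟨hu0, hu0⟩)
    have h0 : Qf (u0, u0) = 0 := by simp [hQf]
    rw [h0] at this
    exact this
  have hQmax : ∀ u v, u ∈ T → v ∈ T → -A u v * ‖f u‖ * ‖f v‖ * ‖uv f u - uv f v‖ ^ 2 ≤ Q := by
    intro u v hu hv
    exact hmax (u, v) (Finset.mem_product.mpr ⟨hu, hv⟩)
  set J : ℝ := (k : ℝ) / 2 with hJ
  have hkpos : (0:ℝ) < k := by exact_mod_cast hk
  have hJ0 : 0 < J := by positivity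
  set l : V → V → ℝ := fun a b => ‖uv f a - uv f b‖ with hl
  have hl0 : ∀ u v, 0 ≤ l u v := fun u v => norm_nonneg _
  set ψ : V → ℝ := psi (adjT A T) l u0 J with hψ
  have hψ0 : ∀ v, 0 ≤ ψ v := fun v => psi_nonneg hl0 hJ0 v
  have hψ1 : 1 ≤ ψ u0 := psi_start hl0 hJ0
  have hψl : ∀ u v, adjT A T u v → |ψ u - ψ v| ≤ l u v / J := by
    intro u v huv
    rw [abs_le]
    have h1 : ψ u ≤ ψ v + l u v / J := psi_lip hl0 hJ0 huv
    have huv' : adjT A T v u := ⟨huv.2.1, huv.1, huv.2.2.1.symm, by rw [h.symm v u]; exact huv.2.2.2⟩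
    have h2 : ψ v ≤ ψ u + l v u / J := psi_lip hl0 hJ0 huv'
    have h3 : l v u = l u v := norm_sub_rev _ _
    rw [h3] at h2
    constructor <;> linarith
  -- projection
  set W : Submodule ℝ H := Submodule.span ℝ {f u0, f v0} with hW
  have hWf : Module.finrank ℝ W ≤ 2 := by
    have h1 := finrank_span_le_card (R := ℝ) ({f u0, f v0} : Set H)
    refine h1.trans ?_
    rw [Set.toFinset_card]
    refine le_trans (le_of_eq ?_) (Finset.card_le_two (a := f u0) (b := f v0))
    rw [← Set.toFinset_card]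
    congr 1
    ext x
    simp
  set F : V → H := fun u => W.starProjection (f u) with hF
  set E : V → H := fun u => W.starProjection (uv f u) with hE
  have hFE : ∀ u, ‖F u‖ = ‖f u‖ * ‖E u‖ := by
    intro u
    show ‖W.starProjection (f u)‖ = _
    conv_lhs => rw [f_eq f u]
    rw [map_smul, norm_smul, norm_norm]
  have hFu0 : F u0 = f u0 := by
    show W.starProjection (f u0) = f u0
    rw [Submodule.starProjection_eq_self_iff]
    exact Submodule.subset_span (by simp)
  have hFv0 : F v0 = f v0 := by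
    show W.starProjection (f v0) = f v0
    rw [Submodule.starProjection_eq_self_iff]
    exact Submodule.subset_span (by simp)
  have hFker : ∀ u, ∑ v, A u v • F v = 0 := by
    intro u
    have h1 : ∑ v, A u v • F v = W.starProjection (∑ v, A u v • f v) := by
      rw [map_sum]
      apply Finset.sum_congr rfl
      intro v _
      rw [map_smul]
    rw [h1, h.ker u, map_zero]
  have hE2 : ∑ u, ‖E u‖ ^ 2 ≤ 4 / ε := proj_bound h W hWf
  have hFout : ∀ u, u ∉ T → F u = 0 := by
    intro u hu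
    show W.starProjection (f u) = 0
    rw [h.out u hu, map_zero]
  set y : V → ℝ := fun u => ψ u * ‖F u‖ with hy
  -- identity
  have hid : ∑ u, ∑ v, A u v * (ψ u ^ 2 * inner ℝ (F u) (F v)) = 0 := by
    apply Finset.sum_eq_zero
    intro u _
    have h1 : inner ℝ (F u) (∑ v, A u v • F v) = (0:ℝ) := by rw [hFker u, inner_zero_right]
    rw [inner_sum] at h1
    have h2 : ∑ v, A u v * (ψ u ^ 2 * inner ℝ (F u) (F v))
        = ψ u ^ 2 * ∑ v, inner ℝ (F u) (A u v • F v) := by
      rw [Finset.mul_sum]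
      apply Finset.sum_congr rfl
      intro v _
      rw [inner_smul_right]
      ring
    rw [h2, h1, mul_zero]
  have hid' : ∑ u, ∑ v, A u v * (ψ v ^ 2 * inner ℝ (F u) (F v)) = 0 := by
    rw [Finset.sum_comm, ← hid]
    apply Finset.sum_congr rfl
    intro u _
    apply Finset.sum_congr rfl
    intro v _
    rw [h.symm v u, real_inner_comm (F u) (F v)]
  have hq : qf A y = ∑ u, ∑ v, A u v * (ψ u * ψ v * ‖F u‖ * ‖F v‖
      - (ψ u ^ 2 + ψ v ^ 2) / 2 * inner ℝ (F u) (F v)) := by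
    have h1 : ∑ u, ∑ v, A u v * (ψ u * ψ v * ‖F u‖ * ‖F v‖
      - (ψ u ^ 2 + ψ v ^ 2) / 2 * inner ℝ (F u) (F v))
      = qf A y - (∑ u, ∑ v, A u v * (ψ u ^ 2 * inner ℝ (F u) (F v))) / 2
        - (∑ u, ∑ v, A u v * (ψ v ^ 2 * inner ℝ (F u) (F v))) / 2 := by
      unfold qf
      rw [Finset.sum_div, Finset.sum_div, ← Finset.sum_sub_distrib, ← Finset.sum_sub_distrib]
      apply Finset.sum_congr rfl
      intro u _
      rw [Finset.sum_div, Finset.sum_div, ← Finset.sum_sub_distrib, ← Finset.sum_sub_distrib]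
      apply Finset.sum_congr rfl
      intro v _
      simp only [hy]
      ring
    rw [h1, hid, hid']
    ring
  -- termwise bounds
  set P1 : V → V → ℝ := fun u v => if adjT A T u v then Q / (4 * J ^ 2) * (‖E u‖ ^ 2 + ‖E v‖ ^ 2) else 0
    with hP1
  set D1 : V → V → ℝ := fun u v => if u = u0 ∧ v = v0 then Q / 4 else 0 with hD1
  set D2 : V → V → ℝ := fun u v => if u = v0 ∧ v = u0 then Q / 4 else 0 with hD2
  have hF2 : ∀ u, inner ℝ (F u) (F u) = ‖F u‖ ^ 2 := fun u => real_inner_self_eq_norm_sq _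
  have hedge : ∀ u v, u = u0 ∧ v = v0 ∨ u = v0 ∧ v = u0 → u ≠ v →
      Q / 4 ≤ -A u v * ((ψ u ^ 2 + ψ v ^ 2) / 2 * (‖F u‖ * ‖F v‖ - inner ℝ (F u) (F v))) := by
    -- first for (u0,v0)
    have base : u0 ≠ v0 → Q / 4 ≤ -A u0 v0 * ((ψ u0 ^ 2 + ψ v0 ^ 2) / 2 *
        (‖F u0‖ * ‖F v0‖ - inner ℝ (F u0) (F v0))) := by
      intro hne
      rw [hFu0, hFv0]
      have h1 : ‖f u0‖ * ‖f v0‖ - inner ℝ (f u0) (f v0)
          = ‖f u0‖ * ‖f v0‖ * (‖uv f u0 - uv f v0‖ ^ 2 / 2) := by
        have e1 : inner ℝ (f u0) (f v0) = ‖f u0‖ * ‖f v0‖ * inner ℝ (uv f u0) (uv f v0) := by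
          conv_lhs => rw [f_eq f u0, f_eq f v0]
          rw [inner_smul_left, inner_smul_right]
          simp
          ring
        have e2 := norm_sub_sq_real (uv f u0) (uv f v0)
        rw [uv_norm f u0 (h.ne hu0), uv_norm f v0 (h.ne hv0)] at e2
        rw [e1, e2]
        ring
      rw [h1]
      have hA : 0 ≤ -A u0 v0 := by linarith [h.off u0 v0 hne]
      have h2 : Q = -A u0 v0 * ‖f u0‖ * ‖f v0‖ * ‖uv f u0 - uv f v0‖ ^ 2 := rfl
      have h3 : -A u0 v0 * ((ψ u0 ^ 2 + ψ v0 ^ 2) / 2 * (‖f u0‖ * ‖f v0‖ * (‖uv f u0 - uv f v0‖ ^ 2 / 2)))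
          = (ψ u0 ^ 2 + ψ v0 ^ 2) * Q / 4 := by
        rw [h2]; ring
      rw [h3]
      have h4 : 1 ≤ ψ u0 ^ 2 + ψ v0 ^ 2 := by nlinarith [sq_nonneg (ψ v0)]
      nlinarith
    rintro u v (⟨rfl, rfl⟩ | ⟨rfl, rfl⟩) hne
    · exact base hne
    · have := base hne.symm
      rw [h.symm u v, real_inner_comm (F v) (F u)]
      have e : (ψ u ^ 2 + ψ v ^ 2) / 2 * (‖F u‖ * ‖F v‖ - inner ℝ (F v) (F u))
          = (ψ v ^ 2 + ψ u ^ 2) / 2 * (‖F v‖ * ‖F u‖ - inner ℝ (F v) (F u)) := by ring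
      rw [e]
      exact this
  have hterm : ∀ u v, A u v * (ψ u * ψ v * ‖F u‖ * ‖F v‖
      - (ψ u ^ 2 + ψ v ^ 2) / 2 * inner ℝ (F u) (F v)) ≤ P1 u v - D1 u v - D2 u v := by
    intro u v
    by_cases huv : u = v
    · subst huv
      have e1 : A u u * (ψ u * ψ u * ‖F u‖ * ‖F u‖ - (ψ u ^ 2 + ψ u ^ 2) / 2 * inner ℝ (F u) (F u)) = 0 := by
        rw [hF2]; ring
      have e2 : P1 u u = 0 := by
        simp only [hP1]
        rw [if_neg]
        exact fun hh => hh.2.2.1 rfl
      have e3 : D1 u u = 0 := by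
        simp only [hD1]
        split_ifs with hh
        · have : Q = 0 := by
            have h2 : Q = -A u0 v0 * ‖f u0‖ * ‖f v0‖ * ‖uv f u0 - uv f v0‖ ^ 2 := rfl
            rw [h2, ← hh.1, ← hh.2]
            simp
          rw [this]; simp
        · rfl
      have e4 : D2 u u = 0 := by
        simp only [hD2]
        split_ifs with hh
        · have : Q = 0 := by
            have h2 : Q = -A u0 v0 * ‖f u0‖ * ‖f v0‖ * ‖uv f u0 - uv f v0‖ ^ 2 := rfl
            rw [h2, ← hh.1, ← hh.2]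
            simp
          rw [this]; simp
        · rfl
      rw [e1, e2, e3, e4]; simp
    · -- off-diagonal
      have hA : 0 ≤ -A u v := by linarith [h.off u v huv]
      have hcs : 0 ≤ ‖F u‖ * ‖F v‖ - inner ℝ (F u) (F v) := by
        linarith [real_inner_le_norm (F u) (F v)]
      have hsec : D1 u v + D2 u v ≤ -A u v * ((ψ u ^ 2 + ψ v ^ 2) / 2 * (‖F u‖ * ‖F v‖ - inner ℝ (F u) (F v))) := by
        have hnn : 0 ≤ -A u v * ((ψ u ^ 2 + ψ v ^ 2) / 2 * (‖F u‖ * ‖F v‖ - inner ℝ (F u) (F v))) := by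
          apply mul_nonneg hA
          apply mul_nonneg _ hcs
          positivity
        simp only [hD1, hD2]
        by_cases c1 : u = u0 ∧ v = v0
        · have c2 : ¬ (u = v0 ∧ v = u0) := by
            rintro ⟨c3, c4⟩
            apply huv
            rw [c1.1, c4]
          rw [if_pos c1, if_neg c2, add_zero]
          exact hedge u v (Or.inl c1) huv
        · rw [if_neg c1, zero_add]
          by_cases c2 : u = v0 ∧ v = u0
          · rw [if_pos c2]
            exact hedge u v (Or.inr c2) huv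
          · rw [if_neg c2]
            exact hnn
      have hfirst : -A u v * ((ψ u - ψ v) ^ 2 / 2 * (‖F u‖ * ‖F v‖)) ≤ P1 u v := by
        simp only [hP1]
        by_cases hadj : adjT A T u v
        · rw [if_pos hadj]
          have h1 : (ψ u - ψ v) ^ 2 ≤ (l u v / J) ^ 2 := by
            rw [← sq_abs]
            exact pow_le_pow_left₀ (abs_nonneg _) (hψl u v hadj) 2
          have h2 := hQmax u v hadj.1 hadj.2.1
          have hn1 := norm_nonneg (E u)
          have hn2 := norm_nonneg (E v)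
          have hn3 := norm_nonneg (f u)
          have hn4 := norm_nonneg (f v)
          have h3 : ‖E u‖ * ‖E v‖ ≤ (‖E u‖ ^ 2 + ‖E v‖ ^ 2) / 2 := by nlinarith [sq_nonneg (‖E u‖ - ‖E v‖)]
          calc -A u v * ((ψ u - ψ v) ^ 2 / 2 * (‖F u‖ * ‖F v‖))
              ≤ -A u v * ((l u v / J) ^ 2 / 2 * (‖F u‖ * ‖F v‖)) := by
                apply mul_le_mul_of_nonneg_left _ hA
                apply mul_le_mul_of_nonneg_right _ (by positivity)
                linarith
            _ = (-A u v * ‖f u‖ * ‖f v‖ * ‖uv f u - uv f v‖ ^ 2) * (‖E u‖ * ‖E v‖) / (2 * J ^ 2) := by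
                rw [hFE u, hFE v]
                simp only [hl]
                field_simp
            _ ≤ Q * ((‖E u‖ ^ 2 + ‖E v‖ ^ 2) / 2) / (2 * J ^ 2) := by
                apply div_le_div_of_nonneg_right _ (by positivity)
                exact mul_le_mul h2 h3 (mul_nonneg hn1 hn2) hQ0
            _ = Q / (4 * J ^ 2) * (‖E u‖ ^ 2 + ‖E v‖ ^ 2) := by
                field_simp
                ring
        · rw [if_neg hadj]
          apply le_of_eq
          by_cases hAz : A u v = 0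
          · rw [hAz]; simp
          · by_cases huT : u ∈ T
            · by_cases hvT : v ∈ T
              · exact absurd ⟨huT, hvT, huv, hAz⟩ hadj
              · rw [hFout v hvT]; simp
            · rw [hFout u huT]; simp
      have hrw : A u v * (ψ u * ψ v * ‖F u‖ * ‖F v‖ - (ψ u ^ 2 + ψ v ^ 2) / 2 * inner ℝ (F u) (F v))
          = -A u v * ((ψ u - ψ v) ^ 2 / 2 * (‖F u‖ * ‖F v‖))
            - -A u v * ((ψ u ^ 2 + ψ v ^ 2) / 2 * (‖F u‖ * ‖F v‖ - inner ℝ (F u) (F v))) := by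
        ring
      rw [hrw]
      linarith
  -- sums
  have hD1s : ∑ u, ∑ v, D1 u v = Q / 4 := by
    simp only [hD1]
    rw [Finset.sum_eq_single u0, Finset.sum_eq_single v0]
    · simp
    · intro v _ hv; simp [hv]
    · simp
    · intro u _ hu; simp [hu]
    · simp
  have hD2s : ∑ u, ∑ v, D2 u v = Q / 4 := by
    simp only [hD2]
    rw [Finset.sum_eq_single v0, Finset.sum_eq_single u0]
    · simp
    · intro v _ hv; simp [hv]
    · simp
    · intro u _ hu; simp [hu]
    · simp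
  have hP1s : ∑ u, ∑ v, P1 u v ≤ Q / (4 * J ^ 2) * (2 * (Δ * (4 / ε))) := by
    have hg : ∀ u : V, ∑ v, (if adjT A T u v then ‖E u‖ ^ 2 else 0) ≤ Δ * ‖E u‖ ^ 2 := by
      intro u
      rw [← Finset.sum_filter, Finset.sum_const, nsmul_eq_mul]
      apply mul_le_mul_of_nonneg_right _ (sq_nonneg _)
      have : (univ.filter (fun v => adjT A T u v)).card ≤ Δ := by
        refine le_trans (Finset.card_le_card ?_) (h.deg u)
        intro v hv
        simp only [Finset.mem_filter, Finset.mem_univ, true_and] at hv ⊢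
        exact ⟨hv.2.2.1.symm, hv.2.2.2⟩
      exact_mod_cast this
    have hsym : ∑ u, ∑ v, (if adjT A T u v then ‖E v‖ ^ 2 else 0)
        = ∑ u, ∑ v, (if adjT A T u v then ‖E u‖ ^ 2 else 0) := by
      rw [Finset.sum_comm]
      apply Finset.sum_congr rfl
      intro u _
      apply Finset.sum_congr rfl
      intro v _
      have : adjT A T v u ↔ adjT A T u v := by
        constructor
        · exact fun huv => ⟨huv.2.1, huv.1, huv.2.2.1.symm, by rw [h.symm u v]; exact huv.2.2.2⟩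
        · exact fun huv => ⟨huv.2.1, huv.1, huv.2.2.1.symm, by rw [h.symm v u]; exact huv.2.2.2⟩
      simp only [this]
    have h1 : ∑ u, ∑ v, P1 u v = Q / (4 * J ^ 2) * (∑ u, ∑ v, (if adjT A T u v then ‖E u‖ ^ 2 else 0)
        + ∑ u, ∑ v, (if adjT A T u v then ‖E v‖ ^ 2 else 0)) := by
      rw [← Finset.sum_add_distrib, Finset.mul_sum]
      apply Finset.sum_congr rfl
      intro u _
      rw [← Finset.sum_add_distrib, Finset.mul_sum]
      apply Finset.sum_congr rfl
      intro v _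
      simp only [hP1]
      split_ifs <;> ring
    rw [h1, hsym]
    apply mul_le_mul_of_nonneg_left _ (by positivity)
    have h2 : ∑ u, ∑ v, (if adjT A T u v then ‖E u‖ ^ 2 else 0) ≤ Δ * (4 / ε) := by
      refine (Finset.sum_le_sum (fun u _ => hg u)).trans ?_
      rw [← Finset.mul_sum]
      exact mul_le_mul_of_nonneg_left hE2 (by positivity)
    linarith
  have hfinal : qf A y ≤ 0 := by
    rw [hq]
    have h1 : ∑ u, ∑ v, A u v * (ψ u * ψ v * ‖F u‖ * ‖F v‖
      - (ψ u ^ 2 + ψ v ^ 2) / 2 * inner ℝ (F u) (F v))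
      ≤ ∑ u, ∑ v, (P1 u v - D1 u v - D2 u v) :=
      Finset.sum_le_sum (fun u _ => Finset.sum_le_sum (fun v _ => hterm u v))
    have h2 : ∑ u, ∑ v, (P1 u v - D1 u v - D2 u v)
        = ∑ u, ∑ v, P1 u v - ∑ u, ∑ v, D1 u v - ∑ u, ∑ v, D2 u v := by
      simp only [Finset.sum_sub_distrib]
    rw [h2, hD1s, hD2s] at h1
    refine h1.trans ?_
    have h3 : Q / (4 * J ^ 2) * (2 * (Δ * (4 / ε))) ≤ Q / 2 := by
      have e1 : Q / (4 * J ^ 2) * (2 * (Δ * (4 / ε))) = Q / 2 * ((16 * Δ) / (ε * k ^ 2)) := by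
        rw [hJ]
        field_simp
        ring
      rw [e1]
      have h4 : (16 * (Δ : ℝ)) / (ε * k ^ 2) ≤ 1 := by
        rw [div_le_one (by positivity)]
        exact hkΔ
      have h5 : 0 ≤ Q / 2 := by positivity
      nlinarith
    linarith
  -- support
  obtain ⟨S, hS1, hS2⟩ := reach_count T (uv f) (adj := adjT A T) (u0 := u0)
    (fun u v huv => ⟨huv.1, huv.2.1⟩) hu0 c0 Δ k hk (h.near_card c0 hc0) h.nb_card
  refine ⟨y, S, ?_, hS1, ?_, hfinal⟩
  · intro h0
    have := congrFun h0 u0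
    simp only [hy, Pi.zero_apply] at this
    rw [hFu0] at this
    have h1 : 0 < ‖f u0‖ := norm_pos_iff.mpr (h.ne hu0)
    have h2 : 0 < ψ u0 := by linarith
    exact absurd this (mul_pos h2 h1).ne'
  · intro v hv
    by_contra hne
    have hpos : 0 < ψ v := by
      rcases (hψ0 v).lt_or_eq with h1 | h1
      · exact h1
      · exfalso
        apply hne
        simp only [hy]
        rw [← h1, zero_mul]
    obtain ⟨ρ, hρ, hr⟩ := psi_supp hJ0 hpos
    exact hv (hS2 ρ v hρ hr)

end TH994.Mult
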