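import Mathlib
import Pool.Agent.TH994.Mult.Pos
import Pool.Agent.TH994.Mult.Test
import Pool.Agent.Helper78.SchDefs
set_option autoImplicit false
set_option linter.unusedSectionVars false
namespace TH994.Mult
open Finset Matrix

variable {V : Type} [Fintype V] [DecidableEq V]

/-- kernel vectors supported in `T` -/
noncomputable def KT (L : Matrix V V ℝ) (T : Finset V) : Submodule ℝ (V → ℝ) where
  carrier := {x | Matrix.toLin' L x = 0 ∧ ∀ v, v ∉ T → x v = 0}
  add_mem' := by
    rintro x y ⟨h1, h2⟩ ⟨h3, h4⟩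
    refine ⟨by rw [map_add, h1, h3, add_zero], fun v hv => ?_⟩
    simp [h2 v hv, h4 v hv]
  zero_mem' := ⟨by simp, fun v _ => rfl⟩
  smul_mem' := by
    rintro c x ⟨h1, h2⟩
    refine ⟨by rw [map_smul, h1, smul_zero], fun v hv => ?_⟩
    simp [h2 v hv]

lemma mem_KT (L : Matrix V V ℝ) (T : Finset V) (x : V → ℝ) :
    x ∈ KT L T ↔ Matrix.toLin' L x = 0 ∧ ∀ v, v ∉ T → x v = 0 := Iff.rfl

lemma KT_ker (L : Matrix V V ℝ) (T : Finset V) {x : V → ℝ} (hx : x ∈ KT L T) (u : V) :
    ∑ v, L u v * x v = 0 := by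
  have h := congrFun hx.1 u
  rw [Matrix.toLin'_apply] at h
  exact h

lemma KT_drop (L : Matrix V V ℝ) (T S I : Finset V)
    (h : ∀ x ∈ KT L T, (∀ i ∈ I, x i = 0) → ∀ u ∈ S, x u = 0) :
    Module.finrank ℝ (KT L T) ≤ Module.finrank ℝ (KT L (T \ S)) + I.card := by
  classical
  let g : KT L T →ₗ[ℝ] ({v : V // v ∈ I} → ℝ) :=
    (LinearMap.funLeft ℝ ℝ (Subtype.val : {v : V // v ∈ I} → V)).comp (KT L T).subtype
  have h1 := LinearMap.finrank_range_add_finrank_ker g
  have h2 : Module.finrank ℝ (LinearMap.range g) ≤ I.card := by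
    have := Submodule.finrank_le (LinearMap.range g)
    rw [Module.finrank_fintype_fun_eq_card] at this
    simpa using this
  let ψ0 : LinearMap.ker g →ₗ[ℝ] (V → ℝ) := (KT L T).subtype.comp (LinearMap.ker g).subtype
  have hmem : ∀ x : LinearMap.ker g, ψ0 x ∈ KT L (T \ S) := by
    intro x
    have hx : x.1.1 ∈ KT L T := x.1.2
    have hz : ∀ i ∈ I, x.1.1 i = 0 := by
      intro i hi
      exact congrFun (LinearMap.mem_ker.mp x.2) ⟨i, hi⟩
    refine ⟨hx.1, ?_⟩
    intro v hv
    show x.1.1 v = 0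
    by_cases hvT : v ∈ T
    · have hvS : v ∈ S := by
        by_contra hvS
        exact hv (Finset.mem_sdiff.mpr ⟨hvT, hvS⟩)
      exact h _ hx hz v hvS
    · exact hx.2 v hvT
  let ψ := ψ0.codRestrict _ hmem
  have hinj : Function.Injective ψ := by
    intro a b hab
    have h5 : (ψ a).1 = (ψ b).1 := by rw [hab]
    apply Subtype.ext
    apply Subtype.ext
    exact h5
  have h3 := LinearMap.finrank_le_finrank_of_injective hinj
  omega

/-- the main step: weights and vectors in near-isotropic position -/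
theorem exists_iso (L : Matrix V V ℝ) (Δ : ℕ) (symm : ∀ u v, L u v = L v u)
    (off : ∀ u v, u ≠ v → L u v ≤ 0)
    (deg : ∀ u, (univ.filter (fun v => v ≠ u ∧ L u v ≠ 0)).card ≤ Δ) (ε : ℝ) (hε : 0 < ε)
    (hK : ε * Fintype.card V < Module.finrank ℝ (LinearMap.ker (Matrix.toLin' L))) :
    ∃ (s : V → ℝ) (T : Finset V) (f : V → EuclideanSpace ℝ V), (∀ v, 0 < s v) ∧ T.Nonempty ∧
      Iso (fun u v => L u v / (s u * s v)) f T Δ ε := by
  classical
  obtain ⟨T, -, hT⟩ := Finset.exists_max_image (univ : Finset (Finset V))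
    (fun T => (Module.finrank ℝ (KT L T) : ℝ) - ε * T.card) ⟨∅, Finset.mem_univ _⟩
  have hTmax : ∀ T' : Finset V, (Module.finrank ℝ (KT L T') : ℝ) - ε * T'.card ≤
      (Module.finrank ℝ (KT L T) : ℝ) - ε * T.card := fun T' => hT T' (Finset.mem_univ _)
  have huniv : KT L univ = LinearMap.ker (Matrix.toLin' L) := by
    ext x
    rw [mem_KT, LinearMap.mem_ker]
    simp
  have hTpos : 0 < (Module.finrank ℝ (KT L T) : ℝ) - ε * T.card := by
    have h1 := hTmax univ
    rw [huniv, Finset.card_univ] at h1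
    linarith
  have hTne : T.Nonempty := by
    rw [Finset.nonempty_iff_ne_empty]
    intro h0
    have h1 : KT L ∅ = ⊥ := by
      rw [eq_bot_iff]
      intro x hx
      rw [Submodule.mem_bot]
      funext v
      exact hx.2 v (by simp)
    rw [h0, h1] at hTpos
    simp at hTpos
  set k := Module.finrank ℝ (KT L T) with hk
  let b : Module.Basis (Fin k) ℝ (KT L T) := Module.finBasis ℝ (KT L T)
  set f0 : {v : V // v ∈ T} → Fin k → ℝ := fun u i => (b i).1 u.1 with hf0
  set X : (Fin k → ℝ) → KT L T := fun c => ∑ i, c i • b i with hX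
  have hXv : ∀ c (u : {v : V // v ∈ T}), (X c).1 u.1 = f0 u ⬝ᵥ c := by
    intro c u
    simp only [hX, hf0, dotProduct]
    rw [Submodule.coe_sum, Finset.sum_apply]
    apply Finset.sum_congr rfl
    intro i _
    rw [Submodule.coe_smul, Pi.smul_apply, smul_eq_mul, mul_comm]
  have hspan : ∀ c : Fin k → ℝ, (∀ u, f0 u ⬝ᵥ c = 0) → c = 0 := by
    intro c hc
    have h1 : X c = 0 := by
      apply Subtype.ext
      funext v
      by_cases hv : v ∈ T
      · have := hXv c ⟨v, hv⟩
        rw [hc] at this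
        exact this
      · exact (X c).2.2 v hv
    have h2 := Fintype.linearIndependent_iff.mp b.linearIndependent c h1
    funext i
    exact h2 i
  have hXsurj : ∀ x : KT L T, ∃ c, X c = x := fun x => ⟨b.repr x, b.sum_repr x⟩
  have hrank : ∀ S I : Finset {v : V // v ∈ T}, (∀ c : Fin k → ℝ, (∀ i ∈ I, f0 i ⬝ᵥ c = 0) →
      ∀ u ∈ S, f0 u ⬝ᵥ c = 0) → ε * S.card ≤ I.card := by
    intro S I hSI
    have h1 := KT_drop L T (S.map (Function.Embedding.subtype _)) (I.map (Function.Embedding.subtype _)) (by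
      intro x hx hxi u hu
      obtain ⟨c, hc⟩ := hXsurj ⟨x, hx⟩
      rw [Finset.mem_map] at hu
      obtain ⟨u', hu', rfl⟩ := hu
      have h2 := hSI c (by
        intro i hi
        rw [← hXv c i, hc]
        exact hxi i.1 (Finset.mem_map.mpr ⟨i, hi, rfl⟩)) u' hu'
      rw [← hXv c u', hc] at h2
      exact h2)
    have h2 := hTmax (T \ S.map (Function.Embedding.subtype _))
    have h3 : (T \ S.map (Function.Embedding.subtype _)).card = T.card - S.card := by
      rw [Finset.card_sdiff_of_subset, Finset.card_map]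
      intro v hv
      rw [Finset.mem_map] at hv
      obtain ⟨w, _, rfl⟩ := hv
      exact w.2
    have h4 : S.card ≤ T.card := by
      have := Finset.card_le_univ S
      simpa using this
    rw [h3, Nat.cast_sub h4] at h2
    rw [Finset.card_map] at h1
    have h5 : (k : ℝ) ≤ (Module.finrank ℝ (KT L (T \ S.map (Function.Embedding.subtype _))) : ℝ) + I.card := by
      exact_mod_cast h1
    have h6 : ε * ((T.card : ℝ) - S.card) = ε * T.card - ε * S.card := by ring
    rw [h6] at h2
    linarith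
  obtain ⟨t, ht⟩ := exists_weights f0 ε hε hspan hrank
  set m : V → ℝ := fun v => if h : v ∈ T then (2:ℝ) ^ t ⟨v, h⟩ else 1 with hm
  have hmpos : ∀ v, 0 < m v := by
    intro v
    simp only [hm]
    split_ifs <;> positivity
  set s : V → ℝ := fun v => Real.sqrt (m v) with hs
  have hspos : ∀ v, 0 < s v := fun v => Real.sqrt_pos.mpr (hmpos v)
  have hs2 : ∀ v, s v ^ 2 = m v := fun v => Real.sq_sqrt (hmpos v).le
  let Ψ : EuclideanSpace ℝ V →ₗ[ℝ] (V → ℝ) :=
    { toFun := fun z v => z v / s v
      map_add' := by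
        intro z w
        funext v
        simp [add_div]
      map_smul' := by
        intro c z
        funext v
        simp [mul_div_assoc] }
  set K' : Submodule ℝ (EuclideanSpace ℝ V) := (KT L T).comap Ψ with hK'
  have hK'z : ∀ z ∈ K', (fun v => z v / s v) ∈ KT L T := fun z hz => hz
  set f : V → EuclideanSpace ℝ V := fun u => K'.starProjection (EuclideanSpace.single u (1:ℝ)) with hf
  have hbf : ∀ (z : EuclideanSpace ℝ V) u, inner ℝ z (f u) = (K'.starProjection z) u := by
    intro z u
    simp only [hf]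
    rw [← Submodule.inner_starProjection_left_eq_right]
    rw [EuclideanSpace.inner_single_right]
    simp
  have horth : ∀ w : EuclideanSpace ℝ V, (∀ z ∈ K', inner ℝ z w = 0) → K'.starProjection w = 0 := by
    intro w hw
    rw [Submodule.starProjection_apply]
    have : K'.orthogonalProjectionOnto w = 0 := by
      rw [Submodule.orthogonalProjectionOnto_eq_zero_iff, Submodule.mem_orthogonal]
      exact hw
    rw [this]
    rfl
  refine ⟨s, T, f, hspos, hTne, hε, ?_, ?_, ?_, ?_, ?_, ?_, ?_⟩
  · intro u v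
    rw [symm u v, mul_comm]
  · intro u v huv
    exact div_nonpos_of_nonpos_of_nonneg (off u v huv) (mul_pos (hspos u) (hspos v)).le
  · intro u
    refine le_trans (Finset.card_le_card ?_) (deg u)
    intro v hv
    simp only [Finset.mem_filter, Finset.mem_univ, true_and] at hv ⊢
    refine ⟨hv.1, fun h => hv.2 ?_⟩
    rw [h, zero_div]
  · intro u
    have h1 : ∑ v, (L u v / (s u * s v)) • f v
        = K'.starProjection (∑ v, (L u v / (s u * s v)) • EuclideanSpace.single v (1:ℝ)) := by
      rw [map_sum]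
      apply Finset.sum_congr rfl
      intro v _
      rw [map_smul]
    rw [h1]
    apply horth
    intro z hz
    rw [inner_sum]
    have h2 : ∀ v, inner ℝ z ((L u v / (s u * s v)) • EuclideanSpace.single v (1:ℝ))
        = (1 / s u) * (L u v * (z v / s v)) := by
      intro v
      rw [inner_smul_right, EuclideanSpace.inner_single_right]
      have := (hspos u).ne'
      have := (hspos v).ne'
      simp
      field_simp
    rw [Finset.sum_congr rfl (fun v _ => h2 v), ← Finset.mul_sum, KT_ker L T (hK'z z hz) u, mul_zero]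
  · intro z
    simp_rw [hbf z]
    have h1 : ∑ u, (K'.starProjection z) u ^ 2 = ‖K'.starProjection z‖ ^ 2 := by
      rw [EuclideanSpace.norm_sq_eq]
      simp
    rw [h1]
    apply pow_le_pow_left₀ (norm_nonneg _)
    exact Submodule.norm_starProjection_apply_le K' z
  · intro u hu
    apply horth
    intro z hz
    rw [EuclideanSpace.inner_single_right]
    have h1 := (hK'z z hz).2 u hu
    simp only at h1
    have h2 : z u = 0 := by
      rcases div_eq_zero_iff.mp h1 with h | h
      · exact h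
      · exact absurd h (hspos u).ne'
    simp [h2]
  · intro u hu
    obtain ⟨c, hc0, hc⟩ := ht ⟨u, hu⟩
    set x := (X c).1 with hx
    have hxK : x ∈ KT L T := (X c).2
    set z : EuclideanSpace ℝ V := WithLp.toLp 2 (fun v => s v * x v) with hz
    have hzv : ∀ v, z v = s v * x v := fun v => rfl
    have hzK : z ∈ K' := by
      show Ψ z ∈ KT L T
      have : Ψ z = x := by
        funext v
        show z v / s v = x v
        rw [hzv, mul_comm, mul_div_assoc, div_self (hspos v).ne', mul_one]
      rw [this]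
      exact hxK
    have hPz : K'.starProjection z = z := Submodule.starProjection_eq_self_iff.mpr hzK
    have h1 : inner ℝ z (f u) = s u * x u := by rw [hbf, hPz, hzv]
    have h2 : (s u * x u) ^ 2 ≤ ‖z‖ ^ 2 * ‖f u‖ ^ 2 := by
      rw [← h1, ← mul_pow, ← sq_abs]
      exact pow_le_pow_left₀ (abs_nonneg _) (abs_real_inner_le_norm _ _) 2
    have h3 : ‖z‖ ^ 2 = ∑ v : {v : V // v ∈ T}, 2 ^ t v * (f0 v ⬝ᵥ c) ^ 2 := by
      rw [EuclideanSpace.norm_sq_eq]
      have e1 : ∀ v, ‖z v‖ ^ 2 = m v * x v ^ 2 := by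
        intro v
        rw [hzv, Real.norm_eq_abs, sq_abs, mul_pow, hs2]
      rw [Finset.sum_congr rfl (fun v _ => e1 v)]
      rw [← Finset.sum_subset (Finset.subset_univ T) (fun v _ hv => by rw [hxK.2 v hv]; ring)]
      rw [← Finset.sum_coe_sort T (fun v => m v * x v ^ 2)]
      apply Finset.sum_congr rfl
      intro v _
      rw [← hXv c v]
      simp only [hm]
      rw [dif_pos v.2]
    have h4 : (s u * x u) ^ 2 = 2 ^ t ⟨u, hu⟩ * (f0 ⟨u, hu⟩ ⬝ᵥ c) ^ 2 := by
      rw [mul_pow, hs2, ← hXv c ⟨u, hu⟩]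
      simp only [hm]
      rw [dif_pos hu]
    have h5 : ε / 2 * ‖z‖ ^ 2 ≤ (s u * x u) ^ 2 := by
      rw [h3, h4]
      exact hc
    have h6 : 0 < (s u * x u) ^ 2 := by
      rw [h4]
      have : 0 < (f0 ⟨u, hu⟩ ⬝ᵥ c) ^ 2 := by positivity
      positivity
    have h7 : 0 < ‖z‖ ^ 2 := by
      by_contra h
      have h8 : ‖z‖ ^ 2 = 0 := le_antisymm (not_lt.mp h) (sq_nonneg _)
      rw [h8, zero_mul] at h2
      linarith
    have h8 := h5.trans h2
    rw [mul_comm] at h8
    exact le_of_mul_le_mul_left h8 h7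

theorem core_quant (L : Matrix V V ℝ) (Δ R k c0 : ℕ) (hsys : Sch.Sys L Δ R) (ε : ℝ) (hε : 0 < ε)
    (hk : 1 ≤ k) (hkΔ : 16 * (Δ : ℝ) ≤ ε * (k : ℝ) ^ 2) (hc0 : 3 ≤ ε * c0)
    (hR : (c0 * (Δ + 1)) ^ k ≤ R) :
    (Module.finrank ℝ (LinearMap.ker (Matrix.toLin' L)) : ℝ) ≤ ε * Fintype.card V := by
  by_contra hcon
  push Not at hcon
  obtain ⟨s, T, f, hs, hT, hiso⟩ := exists_iso L Δ hsys.symm hsys.offdiag hsys.deg ε hε hcon
  obtain ⟨y, S, hy0, hS, hyS, hq⟩ := test_vector hiso hT k c0 hk hkΔ hc0
  have h1 := hsys.lpd S (hS.trans hR) (fun v => y v / s v) (fun v hv => by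
    show y v / s v = 0
    rw [hyS v hv, zero_div]) (by
    intro h0
    apply hy0
    funext v
    have := congrFun h0 v
    simp only [Pi.zero_apply] at this
    rcases div_eq_zero_iff.mp this with h | h
    · exact h
    · exact absurd h (hs v).ne')
  have h2 : Sch.q L (fun v => y v / s v) (fun v => y v / s v)
      = qf (fun u v => L u v / (s u * s v)) y := by
    unfold Sch.q qf
    apply Finset.sum_congr rfl
    intro u _
    apply Finset.sum_congr rfl
    intro v _
    have := (hs u).ne'
    have := (hs v).ne'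
    field_simp
  rw [h2] at h1
  linarith

end TH994.Mult
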