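import Pool.Agent.Helper78.SchMain
import Pool.Agent.TH994.Mult.Core
set_option autoImplicit false
set_option linter.unusedSectionVars false
namespace TH994.Mult
open Finset Matrix Sch

theorem quant (Δ R k c0 : ℕ) (ε : ℝ) (hε : 0 < ε) (hk : 1 ≤ k)
    (hkΔ : 16 * (Δ : ℝ) ≤ ε * (k : ℝ) ^ 2) (hc0 : 3 ≤ ε * c0) (hR : (c0 * (Δ + 1)) ^ k ≤ R)
    {n : ℕ} (hn : 2 ≤ n) (G : SimpleGraph (Fin n)) (D : Fin n → ℝ) (hconn : G.Connected)
    (hdeg : ∀ v, (G.neighborSet v).ncard ≤ Δ) :
    (multLam2 hn G D : ℝ) ≤ ε * n + ((R + 1) * (Δ + 1) ^ 2 : ℕ) := by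
  classical
  set A : ℕ := (R + 1) * (Δ + 1) ^ 2 with hA
  by_cases hnR : R < n
  swap
  · have h1 : multLam2 hn G D ≤ n := by
      have := Submodule.finrank_le
        (Module.End.eigenspace (Matrix.toLin' (schrodinger G D)) (lam2 hn G D))
      simpa [multLam2] using this
    have h2 : n ≤ A := by
      have h3 : R + 1 ≤ A := Nat.le_mul_of_pos_right _ (by positivity)
      omega
    have h3 : (multLam2 hn G D : ℝ) ≤ A := by exact_mod_cast h1.trans h2
    have h4 : 0 ≤ ε * n := by positivity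
    linarith
  set M := schrodinger G D with hM
  set l := lam2 hn G D with hl
  set L : Matrix (Fin n) (Fin n) ℝ := l • (1 : Matrix (Fin n) (Fin n) ℝ) - M with hL
  have hLoff : ∀ u v, u ≠ v → L u v = if G.Adj u v then -1 else 0 := by
    intro u v huv
    rw [hL, hM]
    unfold schrodinger
    simp only [Matrix.sub_apply, Matrix.smul_apply, Matrix.add_apply, Matrix.one_apply_ne huv,
      Matrix.diagonal_apply_ne _ huv, SimpleGraph.adjMatrix_apply]
    split_ifs <;> simp
  have hMoff : ∀ u v, u ≠ v → M u v = - L u v := by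
    intro u v huv
    rw [hL]
    simp only [Matrix.sub_apply, Matrix.smul_apply, Matrix.one_apply_ne huv]
    simp
  have symm : ∀ u v, L u v = L v u := by
    intro u v
    by_cases h : u = v
    · rw [h]
    · rw [hLoff u v h, hLoff v u (Ne.symm h)]
      simp only [G.adj_comm]
  have offdiag : ∀ u v, u ≠ v → L u v ≤ 0 := by
    intro u v h
    rw [hLoff u v h]
    split_ifs <;> norm_num
  have hadj : ∀ u v, (v ≠ u ∧ L u v ≠ 0) ↔ G.Adj u v := by
    intro u v
    constructor
    · rintro ⟨h1, h2⟩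
      rw [hLoff u v (Ne.symm h1)] at h2
      by_contra h
      rw [if_neg h] at h2
      exact h2 rfl
    · intro h
      refine ⟨h.ne', ?_⟩
      rw [hLoff u v h.ne, if_pos h]
      norm_num
  have deg : ∀ u, (univ.filter (fun v => v ≠ u ∧ L u v ≠ 0)).card ≤ Δ := by
    intro u
    refine le_trans (le_of_eq ?_) (hdeg u)
    rw [← Set.ncard_coe_finset]
    congr 1
    ext v
    simp only [Finset.coe_filter, Finset.mem_univ, true_and, Set.mem_ofPred_eq,
      SimpleGraph.mem_neighborSet]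
    exact hadj u v
  have conn : ∀ S : Finset (Fin n), S.Nonempty → S ≠ univ → ∃ u, u ∉ S ∧ ∃ v ∈ S, L u v ≠ 0 := by
    intro S hS hS'
    obtain ⟨x, hx⟩ := hS
    obtain ⟨y, hy⟩ : ∃ y, y ∉ S := by
      by_contra h
      push Not at h
      exact hS' (Finset.eq_univ_iff_forall.mpr h)
    obtain ⟨p⟩ := hconn.preconnected x y
    obtain ⟨d, _, hd1, hd2⟩ := p.exists_boundary_dart (S : Set (Fin n)) (by simpa using hx)
      (by simpa using hy)
    refine ⟨d.snd, by simpa using hd2, d.fst, by simpa using hd1, ?_⟩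
    exact ((hadj d.snd d.fst).mpr d.adj.symm).2
  have hq : ∀ x : Fin n → ℝ, q L x x = l * ∑ u, (x u) ^ 2 - q M x x := by
    intro x
    unfold q
    rw [Finset.mul_sum, ← Finset.sum_sub_distrib]
    apply Finset.sum_congr rfl
    intro u _
    rw [hL]
    have h1 : ∀ v, x u * (l • (1 : Matrix (Fin n) (Fin n) ℝ) - M) u v * x v
        = (if u = v then l * x u * x v else 0) - x u * M u v * x v := by
      intro v
      simp only [Matrix.sub_apply, Matrix.smul_apply, Matrix.one_apply, smul_eq_mul]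
      split_ifs <;> ring
    rw [Finset.sum_congr rfl (fun v _ => h1 v), Finset.sum_sub_distrib, Finset.sum_ite_eq]
    simp only [Finset.mem_univ, if_true]
    ring
  have hcard1 : 1 < Fintype.card (Fin n) := by rw [Fintype.card_fin]; exact hn
  have neg : ∀ x y : Fin n → ℝ, (∀ u v, x u ≠ 0 → y v ≠ 0 → u ≠ v ∧ L u v = 0) →
      ¬ (q L x x < 0 ∧ q L y y < 0) := by
    rintro x y hxy ⟨h1, h2⟩
    rw [hq] at h1 h2
    refine no_two_neg M (schrodinger_isHermitian G D) hcard1 x y ?_ ?_ ?_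
    · intro u v hu hv
      obtain ⟨h3, h4⟩ := hxy u v hu hv
      exact ⟨h3, by rw [hMoff u v h3, h4, neg_zero]⟩
    · have : (schrodinger_isHermitian G D).eigenvalues₀ ⟨1, hcard1⟩ = l := rfl
      rw [this]
      linarith
    · have : (schrodinger_isHermitian G D).eigenvalues₀ ⟨1, hcard1⟩ = l := rfl
      rw [this]
      linarith
  obtain ⟨S0, hS0, hB⟩ := exc_set L Δ R symm offdiag deg conn neg
    (by rw [Fintype.card_fin]; omega)
  rw [← hA] at hS0
  set L2 : Matrix {v : Fin n // v ∉ S0} {v : Fin n // v ∉ S0} ℝ :=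
    L.submatrix (Subtype.val : {v : Fin n // v ∉ S0} → Fin n) Subtype.val with hL2
  have hsys : Sys L2 Δ R := by
    refine ⟨fun u v => symm _ _, fun u v huv => offdiag _ _ (fun h => huv (Subtype.ext h)), ?_, ?_⟩
    · intro u
      refine le_trans ?_ (deg u.1)
      apply Finset.card_le_card_of_injOn Subtype.val
      · intro v hv
        simp only [Finset.coe_filter, Finset.mem_univ, true_and, Set.mem_ofPred_eq] at hv ⊢
        exact ⟨fun h => hv.1 (Subtype.ext h), hv.2⟩
      · intro v _ v' _ h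
        exact Subtype.ext h
    · intro S hS x hx hx0
      set x' : Fin n → ℝ := fun v => if h : v ∉ S0 then x ⟨v, h⟩ else 0 with hx'
      have hxa : ∀ u : {v : Fin n // v ∉ S0}, x' u.1 = x u := by
        intro u
        show (if h : u.1 ∉ S0 then x ⟨u.1, h⟩ else 0) = x u
        rw [dif_pos u.2]
      have hxb : ∀ u ∈ S0, x' u = 0 := by
        intro u hu
        show (if h : u ∉ S0 then x ⟨u, h⟩ else 0) = 0
        rw [dif_neg (not_not.mpr hu)]
      have h1 := hB (S.map (Function.Embedding.subtype _)) (by rw [Finset.card_map]; exact hS)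
        (by
          rw [Finset.disjoint_left]
          intro v hv
          rw [Finset.mem_map] at hv
          obtain ⟨w, _, rfl⟩ := hv
          exact w.2)
        x'
        (by
          intro v hv
          by_cases h : v ∉ S0
          · have h3 := hxa ⟨v, h⟩
            rw [h3]
            apply hx
            intro h2
            apply hv
            rw [Finset.mem_map]
            exact ⟨⟨v, h⟩, h2, rfl⟩
          · exact hxb v (not_not.mp h))
        (by
          intro h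
          apply hx0
          funext v
          have := congrFun h v.1
          rw [hxa] at this
          exact this)
      have h2 : q L x' x' = q L2 x x := by
        unfold q
        rw [sum_compl S0]
        · apply Finset.sum_congr rfl
          intro u _
          rw [sum_compl S0]
          · apply Finset.sum_congr rfl
            intro v _
            rw [hxa, hxa]
            rfl
          · intro v hv
            rw [hxb v hv, mul_zero]
        · intro u hu
          apply Finset.sum_eq_zero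
          intro v _
          rw [hxb u hu, zero_mul, zero_mul]
      rw [h2] at h1
      exact h1
  have hcore := core_quant L2 Δ R k c0 hsys ε hε hk hkΔ hc0 hR
  have hcardV2 : (Fintype.card {v : Fin n // v ∉ S0} : ℝ) ≤ n := by
    have := Fintype.card_subtype_le (fun v : Fin n => v ∉ S0)
    rw [Fintype.card_fin] at this
    exact_mod_cast this
  have heig : Module.End.eigenspace (Matrix.toLin' M) l = LinearMap.ker (Matrix.toLin' L) := by
    ext f
    rw [Module.End.mem_eigenspace_iff, LinearMap.mem_ker, hL, map_sub, LinearMap.sub_apply,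
      map_smul, LinearMap.smul_apply, Matrix.toLin'_one, LinearMap.id_apply, sub_eq_zero]
    exact eq_comm
  have hrank := finrank_ker_le L S0
  have hmult : multLam2 hn G D = Module.finrank ℝ (LinearMap.ker (Matrix.toLin' L)) := by
    unfold multLam2
    rw [← heig]
  rw [hmult]
  have h1 : (Module.finrank ℝ (LinearMap.ker (Matrix.toLin' L)) : ℝ) ≤
      Module.finrank ℝ (LinearMap.ker (Matrix.toLin' L2)) + S0.card := by exact_mod_cast hrank
  have h2 : (S0.card : ℝ) ≤ A := by exact_mod_cast hS0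
  have h3 : ε * (Fintype.card {v : Fin n // v ∉ S0} : ℝ) ≤ ε * n :=
    mul_le_mul_of_nonneg_left hcardV2 (by positivity)
  linarith

/-- explicit form -/
theorem explicit (Δ k : ℕ) (hk : 1 ≤ k) {n : ℕ} (hn : 2 ≤ n) (G : SimpleGraph (Fin n))
    (D : Fin n → ℝ) (hconn : G.Connected) (hdeg : ∀ v, (G.neighborSet v).ncard ≤ Δ) :
    (multLam2 hn G D : ℝ) ≤ 16 * Δ / (k : ℝ) ^ 2 * n + (Δ + 1) ^ 2 * ((k : ℝ) ^ (2 * k) + 1) := by
  have hΔ : 1 ≤ Δ := by
    by_contra h
    have hΔ0 : Δ = 0 := by omega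
    have hnt : Nontrivial (Fin n) := Fin.nontrivial_iff_two_le.mpr hn
    obtain ⟨w, hw⟩ := hconn.preconnected.exists_adj_of_nontrivial (⟨0, by omega⟩ : Fin n)
    have h1 := hdeg ⟨0, by omega⟩
    rw [hΔ0, Nat.le_zero, Set.ncard_eq_zero (Set.toFinite _)] at h1
    have : w ∈ G.neighborSet ⟨0, by omega⟩ := hw
    rw [h1] at this
    exact this
  have hΔr : (1:ℝ) ≤ Δ := by exact_mod_cast hΔ
  have hkr : (1:ℝ) ≤ k := by exact_mod_cast hk
  have hk2 : (0:ℝ) < (k:ℝ) ^ 2 := by positivity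
  set ε : ℝ := 16 * Δ / (k : ℝ) ^ 2 with hε
  have hεpos : 0 < ε := by positivity
  have hrest : (0:ℝ) ≤ (Δ + 1) ^ 2 * ((k : ℝ) ^ (2 * k) + 1) := by positivity
  by_cases h1 : 1 ≤ ε
  · have h2 : multLam2 hn G D ≤ n := by
      have := Submodule.finrank_le
        (Module.End.eigenspace (Matrix.toLin' (schrodinger G D)) (lam2 hn G D))
      simpa [multLam2] using this
    have h3 : (multLam2 hn G D : ℝ) ≤ n := by exact_mod_cast h2
    have h4 : (0:ℝ) ≤ n := Nat.cast_nonneg _
    nlinarith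
  · push Not at h1
    have h2 : 16 * (Δ : ℝ) < (k : ℝ) ^ 2 := by
      rw [hε, div_lt_one hk2] at h1
      exact h1
    set c0 : ℕ := ⌈3 / ε⌉₊ with hc0
    have hc1 : 3 ≤ ε * c0 := by
      have := Nat.le_ceil (3 / ε)
      rw [div_le_iff₀ hεpos] at this
      linarith
    have hc2 : (c0 : ℝ) * (Δ + 1) ≤ (k : ℝ) ^ 2 := by
      have h3 := (Nat.ceil_lt_add_one (show (0:ℝ) ≤ 3 / ε by positivity)).le
      have h4 : 3 / ε = 3 * (k : ℝ) ^ 2 / (16 * Δ) := by
        rw [hε]
        field_simp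
      have h5 : (c0 : ℝ) * (16 * Δ) ≤ 4 * (k : ℝ) ^ 2 := by
        have h6 : (c0 : ℝ) ≤ 3 * (k : ℝ) ^ 2 / (16 * Δ) + 1 := by
          rw [← h4]
          exact h3
        have h7 : (0:ℝ) < 16 * Δ := by positivity
        have h8 := mul_le_mul_of_nonneg_right h6 h7.le
        rw [add_mul, div_mul_cancel₀ _ h7.ne'] at h8
        linarith
      have h6 : (0:ℝ) ≤ c0 := Nat.cast_nonneg _
      nlinarith
    have hR : (c0 * (Δ + 1)) ^ k ≤ k ^ (2 * k) := by
      rw [pow_mul]
      apply Nat.pow_le_pow_left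
      exact_mod_cast hc2
    have hkΔ : 16 * (Δ : ℝ) ≤ ε * (k : ℝ) ^ 2 := by
      rw [hε, div_mul_cancel₀ _ hk2.ne']
    have h3 := quant Δ (k ^ (2 * k)) k c0 ε hεpos hk hkΔ hc1 hR hn G D hconn hdeg
    refine h3.trans (le_of_eq ?_)
    push_cast
    ring

/-- numerical estimate behind the choice of `k` -/
theorem numeric (Δ : ℕ) (hΔ : 1 ≤ Δ) : ∀ᶠ n : ℕ in Filter.atTop, ∃ k : ℕ, 1 ≤ k ∧
    16 * Δ / (k : ℝ) ^ 2 * n + (Δ + 1) ^ 2 * ((k : ℝ) ^ (2 * k) + 1) ≤
      257 * Δ * (n * (Real.log (Real.log n) / Real.log n) ^ 2) := by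
  have hΔr : (1:ℝ) ≤ Δ := by exact_mod_cast hΔ
  have hx : Filter.Tendsto (fun n : ℕ => Real.log (n : ℝ)) Filter.atTop Filter.atTop :=
    Real.tendsto_log_atTop.comp tendsto_natCast_atTop_atTop
  have hy : Filter.Tendsto (fun n : ℕ => Real.log (Real.log (n : ℝ))) Filter.atTop Filter.atTop :=
    Real.tendsto_log_atTop.comp hx
  have ho := isLittleO_pow_exp_pos_mul_atTop 4 (show (0:ℝ) < 1 / 2 by norm_num)
  have ho2 := (ho.def (show (0:ℝ) < 1 / (2 * (Δ + 1) ^ 2) by positivity))
  have ho3 := hx.eventually ho2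
  filter_upwards [ho3, hx.eventually_ge_atTop 2, hy.eventually_ge_atTop 1,
    Filter.eventually_gt_atTop 0] with n h1 h2 h3 hn0
  have hn : (0:ℝ) < n := by exact_mod_cast hn0
  set x := Real.log (n : ℝ) with hxdef
  set y := Real.log x with hydef
  have hx0 : 0 < x := by linarith
  have hy0 : 0 < y := by linarith
  set k : ℕ := ⌈x / (4 * y)⌉₊ with hk
  have hq0 : 0 < x / (4 * y) := by positivity
  have hk1 : 1 ≤ k := Nat.one_le_iff_ne_zero.mpr (by
    rw [hk]
    exact (Nat.ceil_pos.mpr hq0).ne')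
  refine ⟨k, hk1, ?_⟩
  have hkr : (1:ℝ) ≤ k := by exact_mod_cast hk1
  have hklow : x / (4 * y) ≤ k := Nat.le_ceil _
  have hkup : (k : ℝ) ≤ x / (4 * y) + 1 := (Nat.ceil_lt_add_one hq0.le).le
  have hkx : (k : ℝ) ≤ x := by
    have : x / (4 * y) ≤ x / 4 := by
      apply div_le_div_of_nonneg_left hx0.le (by norm_num)
      linarith
    linarith
  -- main term
  have hmain : 16 * Δ / (k : ℝ) ^ 2 * n ≤ 256 * Δ * (n * (y / x) ^ 2) := by
    have e1 : x ^ 2 ≤ 16 * y ^ 2 * (k : ℝ) ^ 2 := by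
      have e2 : x ≤ 4 * y * k := by
        rw [div_le_iff₀ (by positivity)] at hklow
        linarith
      calc x ^ 2 ≤ (4 * y * k) ^ 2 := pow_le_pow_left₀ hx0.le e2 2
        _ = 16 * y ^ 2 * (k : ℝ) ^ 2 := by ring
    have e3 : 16 * Δ / (k : ℝ) ^ 2 ≤ 256 * Δ * (y / x) ^ 2 := by
      rw [div_pow, div_le_iff₀ (by positivity)]
      have e4 : 256 * Δ * (y ^ 2 / x ^ 2) * (k : ℝ) ^ 2 = 16 * Δ * ((16 * y ^ 2 * (k : ℝ) ^ 2) / x ^ 2) := by
        field_simp
        ring
      rw [e4]
      have e5 : 1 ≤ (16 * y ^ 2 * (k : ℝ) ^ 2) / x ^ 2 := by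
        rw [le_div_iff₀ (by positivity)]
        linarith
      have e6 : (0:ℝ) < 16 * Δ := by positivity
      nlinarith
    calc 16 * Δ / (k : ℝ) ^ 2 * n ≤ 256 * Δ * (y / x) ^ 2 * n :=
          mul_le_mul_of_nonneg_right e3 hn.le
      _ = _ := by ring
  -- remainder
  have hexpx : Real.exp (x / 2) * Real.exp (x / 2) = n := by
    rw [← Real.exp_add, add_halves, hxdef, Real.exp_log hn]
  have hkk : (k : ℝ) ^ (2 * k) ≤ Real.exp (x / 2) * x ^ 2 := by
    have e1 : (k : ℝ) ^ (2 * k) = Real.exp (2 * k * Real.log k) := by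
      rw [← Real.rpow_natCast, Real.rpow_def_of_pos (by linarith)]
      congr 1
      push_cast
      ring
    have e2 : Real.log k ≤ y := Real.log_le_log (by linarith) hkx
    have e3 : 0 ≤ Real.log k := Real.log_nonneg hkr
    have e4 : 2 * (k : ℝ) * Real.log k ≤ x / 2 + 2 * y := by
      calc 2 * (k : ℝ) * Real.log k ≤ 2 * (x / (4 * y) + 1) * y := by
            apply mul_le_mul _ e2 e3 (by positivity)
            linarith
        _ = x / 2 + 2 * y := by
            field_simp
            ring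
    rw [e1]
    have e5 : x ^ 2 = Real.exp (2 * y) := by
      rw [two_mul, Real.exp_add, hydef, Real.exp_log hx0, pow_two]
    rw [e5, ← Real.exp_add]
    exact Real.exp_le_exp.mpr e4
  have hone : (1:ℝ) ≤ Real.exp (x / 2) * x ^ 2 := by
    have e1 : (1:ℝ) ≤ Real.exp (x / 2) := Real.one_le_exp (by linarith)
    nlinarith
  have h1' : x ^ 4 ≤ 1 / (2 * (Δ + 1) ^ 2) * Real.exp (x / 2) := by
    have e1 := h1
    rw [Real.norm_eq_abs, Real.norm_eq_abs, abs_of_pos (by positivity), abs_of_pos (Real.exp_pos _)] at e1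
    have e2 : 1 / 2 * x = x / 2 := by ring
    rw [e2] at e1
    exact e1
  have hrem : (Δ + 1) ^ 2 * ((k : ℝ) ^ (2 * k) + 1) ≤ Δ * (n * (y / x) ^ 2) := by
    have e1 : ((Δ:ℝ) + 1) ^ 2 * ((k : ℝ) ^ (2 * k) + 1) ≤ (Δ + 1) ^ 2 * (2 * (Real.exp (x / 2) * x ^ 2)) := by
      apply mul_le_mul_of_nonneg_left _ (by positivity)
      linarith
    have e2 : 2 * ((Δ:ℝ) + 1) ^ 2 * x ^ 4 ≤ Real.exp (x / 2) := by
      have := mul_le_mul_of_nonneg_left h1' (show (0:ℝ) ≤ 2 * ((Δ:ℝ) + 1) ^ 2 by positivity)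
      rw [← mul_assoc, mul_one_div_cancel (by positivity), one_mul] at this
      exact this
    have e3 : ((Δ:ℝ) + 1) ^ 2 * (2 * (Real.exp (x / 2) * x ^ 2)) ≤ n / x ^ 2 := by
      rw [le_div_iff₀ (by positivity)]
      calc ((Δ:ℝ) + 1) ^ 2 * (2 * (Real.exp (x / 2) * x ^ 2)) * x ^ 2
          = Real.exp (x / 2) * (2 * ((Δ:ℝ) + 1) ^ 2 * x ^ 4) := by ring
        _ ≤ Real.exp (x / 2) * Real.exp (x / 2) :=
            mul_le_mul_of_nonneg_left e2 (Real.exp_pos _).le
        _ = n := hexpx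
    have e4 : (n:ℝ) / x ^ 2 ≤ Δ * (n * (y / x) ^ 2) := by
      have e5 : Δ * (n * (y / x) ^ 2) = (Δ * y ^ 2) * (n / x ^ 2) := by
        field_simp
      rw [e5]
      have e6 : (1:ℝ) ≤ Δ * y ^ 2 := by nlinarith
      have e7 : (0:ℝ) ≤ n / x ^ 2 := by positivity
      nlinarith
    linarith
  calc _ ≤ 256 * Δ * (n * (y / x) ^ 2) + Δ * (n * (y / x) ^ 2) := add_le_add hmain hrem
    _ = _ := by ring

end TH994.Mult
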